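import Mathlib

namespace Pool.Agent.H733.OB

open Set

theorem strictMono_of_step {k : ℕ → ℕ} (hk : ∀ i, k i + 10 ≤ k (i + 1)) : StrictMono k :=
  strictMono_nat_of_lt_succ fun i => by have := hk i; omega

/-- every number above the first value lies in a block -/
theorem exists_block {k : ℕ → ℕ} (hk : StrictMono k) {m : ℕ} (h0 : k 0 ≤ m) :
    ∃ i, k i ≤ m ∧ m < k (i + 1) := by
  classical
  have hex : ∃ i, m < k (i + 1) := ⟨m, lt_of_lt_of_le (Nat.lt_succ_self m) (hk.id_le (m + 1))⟩
  refine ⟨Nat.find hex, ?_, Nat.find_spec hex⟩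
  rcases Nat.eq_zero_or_pos (Nat.find hex) with h | h
  · rw [h]; exact h0
  · obtain ⟨j, hj⟩ := Nat.exists_eq_succ_of_ne_zero h.ne'
    have := Nat.find_min hex (m := j) (by omega)
    rw [hj]
    exact not_lt.mp this

theorem block_le {k : ℕ → ℕ} (hk : StrictMono k) {m p i : ℕ} (h1 : k p ≤ m) (h2 : m < k (i + 1)) :
    p ≤ i := by
  by_contra hc
  have : k (i + 1) ≤ k p := hk.monotone (by omega)
  omega

/-- The final block computation. -/
theorem final_block {a b c h k : ℕ → ℕ} (ha : Monotone a) (hc : Monotone c)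
    (hh : Monotone h) (hk10 : ∀ i, k i + 10 ≤ k (i + 1)) (hkh : ∀ i, h (k i) + 10 ≤ k (i + 1))
    {I : ℕ}
    (hF : ∀ d ≥ I, (∀ n, ¬ (k (d + 3) ≤ a n ∧ a n < k (d + 4))) ∨
      ((∀ n, ¬ (k d ≤ b n ∧ b n < k (d + 7))) ∧ a (k (d + 3)) < k (d + 4)))
    (ha' : ∀ n ≥ I, n < a n) (hb' : ∀ n ≥ I, n < b n)
    (h1 : ∀ n ≥ I, b n ≤ max (a (n + 3)) (c (n + 3)) + 1)
    (h2 : ∀ n ≥ I, a n ≤ max (b (n + 3)) (c (n + 3)) + 1) :
    ∀ n ≥ k (I + 10), h n < c n := by
  have hks : StrictMono k := strictMono_of_step hk10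
  have hid : ∀ i, i ≤ k i := hks.id_le
  have hkk : ∀ i j, i < j → k i + 10 ≤ k j := fun i j hij =>
    (hk10 i).trans (hks.monotone hij)
  intro n hn
  obtain ⟨i, hi1, hi2⟩ := exists_block hks (m := n) (le_trans (hks.monotone (Nat.zero_le _)) hn)
  have hiI : I + 10 ≤ i := block_le hks hn hi2
  obtain ⟨e, rfl⟩ : ∃ e, i = e + 10 := ⟨i - 10, by omega⟩
  -- main claim
  have main : k (e + 12) ≤ c (k (e + 10)) + 1 := by
    by_cases hhit : ∃ d, e + 5 ≤ d ∧ d ≤ e + 9 ∧ ∃ n, k (d + 3) ≤ a n ∧ a n < k (d + 4)
    · obtain ⟨d, hd1, hd2, n', hn'⟩ := hhit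
      rcases hF d (by omega) with hmiss | ⟨hbm, hak⟩
      · exact absurd hn' (hmiss n')
      · have hkd : I ≤ k d := le_trans (by omega) (hid d)
        have hb1 := hb' (k d) hkd
        have hb2 : k (d + 7) ≤ b (k d) := by
          by_contra hcon
          exact hbm (k d) ⟨hb1.le, not_le.mp hcon⟩
        have ha1 : a (k d + 3) ≤ a (k (d + 3)) := by
          apply ha
          have := hk10 d
          have := hks.monotone (show d + 1 ≤ d + 3 by omega)
          omega
        have h47 : k (d + 4) + 10 ≤ k (d + 7) := hkk _ _ (by omega)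
        have := h1 (k d) hkd
        have hcc : b (k d) ≤ c (k d + 3) + 1 := by
          rcases le_total (a (k d + 3)) (c (k d + 3)) with hle | hle
          · rwa [max_eq_right hle] at this
          · rw [max_eq_left hle] at this
            omega
        have hmono : c (k d + 3) ≤ c (k (e + 10)) := by
          apply hc
          have := hk10 d
          have := hks.monotone (show d + 1 ≤ e + 10 by omega)
          omega
        have := hks.monotone (show e + 12 ≤ d + 7 by omega)
        omega
    · have hmissA : ∀ d, e + 5 ≤ d → d ≤ e + 9 → ∀ n, ¬ (k (d + 3) ≤ a n ∧ a n < k (d + 4)) := by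
        intro d hd1 hd2 n' hn'
        exact hhit ⟨d, hd1, hd2, n', hn'⟩
      -- value of a at m₀ = k (e+8)
      have hI8 : I ≤ k (e + 8) := le_trans (by omega) (hid (e + 8))
      have ham := ha' (k (e + 8)) hI8
      obtain ⟨i₁, hi₁, hi₁'⟩ := exists_block hks (m := a (k (e + 8)))
        (le_trans (hks.monotone (Nat.zero_le (e + 8))) ham.le)
      have hge : e + 8 ≤ i₁ := block_le hks ham.le hi₁'
      have hge' : e + 13 ≤ i₁ := by
        by_contra hcon
        obtain ⟨d, rfl⟩ : ∃ d, i₁ = d + 3 := ⟨i₁ - 3, by omega⟩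
        exact hmissA d (by omega) (by omega) _ ⟨hi₁, hi₁'⟩
      obtain ⟨d, rfl⟩ : ∃ d, i₁ = d + 3 := ⟨i₁ - 3, by omega⟩
      rcases hF d (by omega) with hmiss | ⟨hbm, hak⟩
      · exact absurd ⟨hi₁, hi₁'⟩ (hmiss _)
      · have h8 := hk10 (e + 8)
        have h89 : e + 8 + 1 = e + 9 := rfl
        rw [h89] at h8
        have h910 := hks.monotone (show e + 9 ≤ e + 10 by omega)
        have h9d := hks.monotone (show e + 9 ≤ d + 3 by omega)
        rcases lt_or_ge (b (k (e + 8) + 3)) (k d) with hlt | hge2
        · have := h2 (k (e + 8)) hI8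
          have hd3 : k d + 10 ≤ k (d + 3) := by
            have := hk10 d
            have := hks.monotone (show d + 1 ≤ d + 3 by omega)
            omega
          have hcc : a (k (e + 8)) ≤ c (k (e + 8) + 3) + 1 := by
            rcases le_total (b (k (e + 8) + 3)) (c (k (e + 8) + 3)) with hle | hle
            · rwa [max_eq_right hle] at this
            · rw [max_eq_left hle] at this
              omega
          have hmono : c (k (e + 8) + 3) ≤ c (k (e + 10)) := by
            apply hc; omega
          have := hks.monotone (show e + 12 ≤ d + 3 by omega)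
          omega
        · have hb2 : k (d + 7) ≤ b (k (e + 8) + 3) := by
            by_contra hcon
            exact hbm _ ⟨hge2, not_le.mp hcon⟩
          have := h1 (k (e + 8) + 3) (by omega)
          have ha1 : a (k (e + 8) + 3 + 3) ≤ a (k (d + 3)) := by
            apply ha; omega
          have h47 : k (d + 4) + 10 ≤ k (d + 7) := hkk _ _ (by omega)
          have hcc : b (k (e + 8) + 3) ≤ c (k (e + 8) + 3 + 3) + 1 := by
            rcases le_total (a (k (e + 8) + 3 + 3)) (c (k (e + 8) + 3 + 3)) with hle | hle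
            · rwa [max_eq_right hle] at this
            · rw [max_eq_left hle] at this
              omega
          have hmono : c (k (e + 8) + 3 + 3) ≤ c (k (e + 10)) := by
            apply hc; omega
          have := hks.monotone (show e + 12 ≤ d + 7 by omega)
          omega
  have hcn : c (k (e + 10)) ≤ c n := hc hi1
  have hi2' : n < k (e + 11) := hi2
  have hhn : h n ≤ h (k (e + 11)) := hh hi2'.le
  have := hkh (e + 11)
  have e2 : e + 11 + 1 = e + 12 := rfl
  rw [e2] at this
  omega

end Pool.Agent.H733.OB
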