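import Pool.Agent.H733.OB.Defs
import Pool.Agent.H733.OB.Final

namespace Pool.Agent.H733.OB

open Set

/-- the next element of `K` strictly above `n` -/
noncomputable def nxt (K : Set ℕ) (n : ℕ) : ℕ := sInf {k | k ∈ K ∧ n < k}

theorem nxt_spec {K : Set ℕ} (hK : K.Infinite) (n : ℕ) : nxt K n ∈ K ∧ n < nxt K n := by
  have hne : {k | k ∈ K ∧ n < k}.Nonempty := by
    obtain ⟨m, hm, hnm⟩ := hK.exists_gt n
    exact ⟨m, hm, hnm⟩
  exact Nat.sInf_mem hne

theorem nxt_mem {K : Set ℕ} (hK : K.Infinite) (n : ℕ) : nxt K n ∈ K := (nxt_spec hK n).1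

theorem lt_nxt {K : Set ℕ} (hK : K.Infinite) (n : ℕ) : n < nxt K n := (nxt_spec hK n).2

theorem nxt_le {K : Set ℕ} {n k : ℕ} (hk : k ∈ K) (h : n < k) : nxt K n ≤ k :=
  Nat.sInf_le ⟨hk, h⟩

theorem le_nxt {K : Set ℕ} (hK : K.Infinite) {n m : ℕ} (h : ∀ k ∈ K, n < k → m ≤ k) :
    m ≤ nxt K n := h _ (nxt_mem hK n) (lt_nxt hK n)

theorem nxt_range {k : ℕ → ℕ} (hk : StrictMono k) (i : ℕ) : nxt (range k) (k i) = k (i + 1) := by
  apply le_antisymm
  · exact nxt_le ⟨i + 1, rfl⟩ (hk (Nat.lt_succ_self i))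
  · apply le_nxt (infinite_range_of_injective hk.injective)
    rintro _ ⟨j, rfl⟩ hj
    exact hk.monotone (hk.lt_iff_lt.mp hj)

/-- the largest element of `K` below a given number, for number above some element -/
theorem exists_last {K : Set ℕ} {m k₀ : ℕ} (hk₀ : k₀ ∈ K) (h : k₀ ≤ m) :
    ∃ κ ∈ K, k₀ ≤ κ ∧ κ ≤ m ∧ ∀ κ' ∈ K, κ' ≤ m → κ' ≤ κ := by
  classical
  have hfin : {κ | κ ∈ K ∧ κ ≤ m}.Finite := (Set.finite_Iic m).subset fun κ hκ => hκ.2
  obtain ⟨κ, hκ, hmax⟩ := hfin.exists_le_maximal (a := k₀) ⟨hk₀, h⟩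
  refine ⟨κ, hmax.prop.1, hκ, hmax.prop.2, fun κ' h1 h2 => ?_⟩
  by_contra hcon
  exact hcon (hmax.le_of_ge ⟨h1, h2⟩ (not_le.mp hcon).le)

theorem sparse {M : Set ℕ} (hM : M.Infinite) (h : ℕ → ℕ) :
    ∃ a : ℕ → ℕ, StrictMono a ∧ (∀ t, a t ∈ M) ∧ ∀ t, h (a t) < a (t + 1) := by
  let a : ℕ → ℕ := fun t => Nat.rec (nxt M 0) (fun _ p => nxt M (max p (h p))) t
  have ha : ∀ t, a (t + 1) = nxt M (max (a t) (h (a t))) := fun t => rfl
  have hlt : ∀ t, max (a t) (h (a t)) < a (t + 1) := fun t => by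
    rw [ha]; exact lt_nxt hM _
  refine ⟨a, strictMono_nat_of_lt_succ fun t => (le_max_left _ _).trans_lt (hlt t), fun t => ?_,
    fun t => (le_max_right _ _).trans_lt (hlt t)⟩
  cases t with
  | zero => exact nxt_mem hM _
  | succ t => rw [ha]; exact nxt_mem hM _

/-- Pigeonhole: `s + 1` consecutive windows cannot all be hit by a function whose values from
`s` on are beyond all of them. -/
theorem pigeon {y l u : ℕ → ℕ} {s : ℕ} (hul : ∀ r, u r ≤ l (r + 1)) (hlu : ∀ r, l r ≤ u r)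
    (hbig : ∀ n, s ≤ n → u s ≤ y n) : ∃ r ≤ s, ∀ n, ¬ (l r ≤ y n ∧ y n < u r) := by
  classical
  by_contra hcon
  push Not at hcon
  have hum : Monotone u := monotone_nat_of_le_succ fun r => (hul r).trans (hlu _)
  have hlm : Monotone l := monotone_nat_of_le_succ fun r => (hlu r).trans (hul r)
  choose! n hn using hcon
  have hns : ∀ r ∈ Finset.range (s + 1), n r ∈ Finset.range s := by
    intro r hr
    rw [Finset.mem_range] at hr ⊢
    by_contra hge
    have h1 := hn r (by omega)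
    have h2 := hbig (n r) (by omega)
    have h3 := hum (show r ≤ s by omega)
    omega
  have hcard : (Finset.range s).card < (Finset.range (s + 1)).card := by simp
  obtain ⟨r, hr, r', hr', hne, heq⟩ :=
    Finset.exists_ne_map_eq_of_card_lt_of_maps_to hcard hns
  rw [Finset.mem_range] at hr hr'
  have h1 := hn r (by omega)
  have h2 := hn r' (by omega)
  rw [heq] at h1
  rcases lt_or_gt_of_ne hne with hlt | hlt
  · have := hul r
    have := hlm (show r + 1 ≤ r' from hlt)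
    omega
  · have := hul r'
    have := hlm (show r' + 1 ≤ r from hlt)
    omega

section families

variable {X : Type*} (y : X → ℕ → ℕ)

/-- first family attached to an infinite set `B` -/
def famG (B : Set ℕ) : Set (Set ℕ) :=
  {K | K.Infinite ∧ ∃ x, (∃ N₀, ∀ n ≥ N₀, n < y x n) ∧ ∃ N, ∀ k ∈ K, N ≤ k →
    (∀ n, ¬ (k ≤ y x n ∧ y x n < nxt K k)) ∨
      ((∃ b ∈ B, k ≤ b ∧ b < nxt K k) ∧ y x k < nxt K k)}

/-- `z` grows faster than the successor function of `J` -/
def Big (z : X) (J : Set ℕ) : Prop := ∃ N, ∀ j ∈ J, N ≤ j → nxt J j < y z j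

/-- the set of points whose block is far from the values of `y z` -/
def farSet (k : ℕ → ℕ) (z : X) : Set ℕ :=
  {m | ∃ i, k (i + 3) ≤ m ∧ m < k (i + 4) ∧ ∀ n, ¬ (k i ≤ y z n ∧ y z n < k (i + 7))}

/-- second family attached to an infinite set `B` -/
def famH (k : ℕ → ℕ) (B : Set ℕ) : Set (Set ℕ) :=
  {J | J.Infinite ∧ ∀ z, Big y z J → (B ∩ farSet y k z).Infinite}

variable {y}

theorem Big.mono (hy : ∀ x, Monotone (y x)) {z : X} {J Y : Set ℕ} (hY : Y.Infinite)
    (hsub : (Y \ J).Finite) (h : Big y z Y) : Big y z J := by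
  obtain ⟨N, hN⟩ := h
  obtain ⟨M, hM⟩ := hsub.bddAbove
  obtain ⟨p, hp, hpN⟩ := hY.exists_gt (max N M)
  refine ⟨p, fun j hj hpj => ?_⟩
  obtain ⟨q, hq, hpq, hqj, hmax⟩ := exists_last hp hpj
  have h1 := hN q hq (by have := le_max_left N M; omega)
  have h2 : j < nxt Y q := by
    by_contra hcon
    have := hmax _ (nxt_mem hY q) (not_lt.mp hcon)
    have := lt_nxt hY q
    omega
  have h3 : nxt Y q ∈ J := by
    by_contra hcon
    have h4 : nxt Y q ≤ M := hM ⟨nxt_mem hY q, hcon⟩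
    have := lt_nxt hY q
    have := le_max_right N M
    omega
  have h5 := nxt_le h3 h2
  have h6 := hy z hqj
  omega

theorem famG_sub (hy : ∀ x, Monotone (y x)) {B K Y : Set ℕ} (hK : K ∈ famG y B)
    (hY : Y.Infinite) (hsub : (Y \ K).Finite) : Y ∈ famG y B := by
  obtain ⟨hKi, x, hx0, N, hN⟩ := hK
  obtain ⟨M, hM⟩ := hsub.bddAbove
  refine ⟨hY, x, hx0, max N (M + 1), fun k hk hNk => ?_⟩
  have hNk1 := le_max_left N (M + 1)
  have hNk2 := le_max_right N (M + 1)
  have hmemK : ∀ p ∈ Y, k ≤ p → p ∈ K := by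
    intro p hp hkp
    by_contra hcon
    have : p ≤ M := hM ⟨hp, hcon⟩
    omega
  by_cases hhit : ∃ n, k ≤ y x n ∧ y x n < nxt Y k
  · right
    obtain ⟨n, hn1, hn2⟩ := hhit
    obtain ⟨κ, hκ, hkκ, hκn, hmax⟩ := exists_last (hmemK k hk le_rfl) hn1
    have hnκ : y x n < nxt K κ := by
      by_contra hcon
      have := hmax _ (nxt_mem hKi κ) (not_lt.mp hcon)
      have := lt_nxt hKi κ
      omega
    have hle : nxt K κ ≤ nxt Y k :=
      nxt_le (hmemK _ (nxt_mem hY k) (lt_nxt hY k).le) (by omega)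
    rcases hN κ hκ (by omega) with h | ⟨⟨b, hb, hb1, hb2⟩, h⟩
    · exact absurd ⟨hκn, hnκ⟩ (h n)
    · refine ⟨⟨b, hb, by omega, by omega⟩, ?_⟩
      have := hy x hkκ
      omega
  · left
    intro n hn
    exact hhit ⟨n, hn⟩

theorem lt_of_fast (hy : ∀ x, Monotone (y x)) {x : X} {j : ℕ → ℕ}
    (hx : ∀ i, j (i + 1) < y x (j i)) {n i : ℕ} (h : j i ≤ n) : j (i + 1) < y x n :=
  (hx i).trans_le (hy x h)

theorem eventually_lt_of_fast (hy : ∀ x, Monotone (y x)) {x : X} {j : ℕ → ℕ} (hj : StrictMono j)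
    (hx : ∀ i, j (i + 1) < y x (j i)) : ∀ n ≥ j 0, n < y x n := by
  intro n hn
  obtain ⟨i, hi1, hi2⟩ := exists_block hj hn
  exact hi2.trans (lt_of_fast hy hx hi1)

theorem iUnion_blocks_infinite {f : ℕ → ℕ} (hf : StrictMono f) {A : Set ℕ} (hA : A.Infinite) :
    (⋃ a ∈ A, Set.Ico (f a) (f (a + 1))).Infinite := by
  have hsub : f '' A ⊆ ⋃ a ∈ A, Set.Ico (f a) (f (a + 1)) := by
    rintro _ ⟨a, ha, rfl⟩
    exact mem_biUnion ha ⟨le_rfl, hf (Nat.lt_succ_self a)⟩
  exact (hA.image hf.injective.injOn).mono hsub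

/-- the missed blocks -/
theorem missed_infinite (hy : ∀ x, Monotone (y x))
    (h1 : ∀ j : ℕ → ℕ, StrictMono j → ∃ x, ∀ i, j (i + 1) < y x (j i))
    {f : ℕ → ℕ} (hf : StrictMono f) :
    ∃ x, (∃ N₀, ∀ n ≥ N₀, n < y x n) ∧
      {a | ∀ n, ¬ (f a ≤ y x n ∧ y x n < f (a + 1))}.Infinite := by
  classical
  let g : ℕ → ℕ := fun t => Nat.rec 0 (fun _ p => p + f p + 2) t
  have hg : ∀ t, g (t + 1) = g t + f (g t) + 2 := fun t => rfl
  have hgs : StrictMono g := strictMono_nat_of_lt_succ fun t => by rw [hg]; omega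
  have hjs : StrictMono (fun i => f (g i)) := hf.comp hgs
  obtain ⟨x, hx⟩ := h1 _ hjs
  refine ⟨x, ⟨_, eventually_lt_of_fast hy hjs hx⟩, ?_⟩
  rw [Set.infinite_iff_exists_gt]
  intro i
  -- find a missed block in `[g (i+1), g (i+2))`
  by_contra hcon
  have hhit : ∀ a, g (i + 1) ≤ a → ∃ n, f a ≤ y x n ∧ y x n < f (a + 1) := by
    intro a ha
    by_contra hno
    apply hcon
    refine ⟨a, fun n hn => hno ⟨n, hn⟩, ?_⟩
    have : i + 1 ≤ g (i + 1) := hgs.id_le _
    omega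
  choose! n hn using hhit
  have hmaps : ∀ a ∈ Finset.Ico (g (i + 1)) (g (i + 2)), n a ∈ Finset.range (f (g (i + 1))) := by
    intro a ha
    rw [Finset.mem_Ico] at ha
    rw [Finset.mem_range]
    by_contra hge
    have h3 := lt_of_fast (j := fun i => f (g i)) hy hx (i := i + 1) (not_lt.mp hge)
    have h4 := hn a ha.1
    have h5 : f (a + 1) ≤ f (g (i + 2)) := hf.monotone (by omega)
    have h6 : f (g (i + 1 + 1)) < y x (n a) := h3
    have h7 : g (i + 1 + 1) = g (i + 2) := rfl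
    rw [h7] at h6
    omega
  have hcard : (Finset.range (f (g (i + 1)))).card <
      (Finset.Ico (g (i + 1)) (g (i + 2))).card := by
    rw [Finset.card_range, Nat.card_Ico]
    have : g (i + 2) = g (i + 1) + f (g (i + 1)) + 2 := rfl
    omega
  obtain ⟨r, hr, r', hr', hne, heq⟩ :=
    Finset.exists_ne_map_eq_of_card_lt_of_maps_to hcard hmaps
  rw [Finset.mem_Ico] at hr hr'
  have e1 := hn r hr.1
  have e2 := hn r' hr'.1
  rw [heq] at e1
  rcases lt_or_gt_of_ne hne with hlt | hlt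
  · have := hf.monotone (show r + 1 ≤ r' from hlt)
    omega
  · have := hf.monotone (show r' + 1 ≤ r from hlt)
    omega

/-- the blocks indexed by a sparse sequence: description of the successor function -/
theorem blocks_nxt {f a : ℕ → ℕ} (hf : StrictMono f) (ha : StrictMono a) {k t : ℕ}
    (hk' : k + 1 = f (a t + 1)) :
    f (a (t + 1)) ≤ nxt (⋃ a' ∈ range a, Set.Ico (f a') (f (a' + 1))) k := by
  apply le_nxt (iUnion_blocks_infinite hf (infinite_range_of_injective ha.injective))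
  intro k' hk'' hlt
  rw [mem_iUnion₂] at hk''
  obtain ⟨_, ⟨s, rfl⟩, hs⟩ := hk''
  have hs1 : f (a s) ≤ k' := hs.1
  have hs2 : k' < f (a s + 1) := hs.2
  have h1 : f (a t + 1) < f (a s + 1) := by omega
  have h2 : a t + 1 < a s + 1 := hf.lt_iff_lt.mp h1
  have h3 : t < s := ha.lt_iff_lt.mp (by omega)
  exact (hf.monotone (ha.monotone (show t + 1 ≤ s from h3))).trans hs1

theorem famG_groupwiseDense (hy : ∀ x, Monotone (y x))
    (h1 : ∀ j : ℕ → ℕ, StrictMono j → ∃ x, ∀ i, j (i + 1) < y x (j i))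
    {B : Set ℕ} (hB : B.Infinite) : GroupwiseDense (famG y B) := by
  refine ⟨fun K hK => hK.1, fun K hK Y hY hsub => famG_sub hy hK hY hsub, fun f hf _ => ?_⟩
  obtain ⟨x, hx0, hM⟩ := missed_infinite hy h1 hf
  choose bb hbB hbb using fun m => hB.exists_gt m
  obtain ⟨a, has, haM, ha⟩ := sparse hM (fun p => max (y x (f (p + 1))) (bb (f (p + 1))))
  refine ⟨range a, infinite_range_of_injective has.injective, ?_⟩
  have hKi := iUnion_blocks_infinite hf (infinite_range_of_injective has.injective)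
  refine ⟨hKi, x, hx0, 0, fun k hk _ => ?_⟩
  have hk0 := hk
  rw [mem_iUnion₂] at hk
  obtain ⟨_, ⟨t, rfl⟩, ht1, ht2⟩ := hk
  rcases Nat.lt_or_ge (k + 1) (f (a t + 1)) with hlt | hge
  · left
    intro n hn
    have hmem : k + 1 ∈ ⋃ a' ∈ range a, Set.Ico (f a') (f (a' + 1)) :=
      mem_biUnion ⟨t, rfl⟩ ⟨by omega, hlt⟩
    have := nxt_le hmem (Nat.lt_succ_self k)
    exact haM t n ⟨by omega, by omega⟩
  · right
    have hk1 : k + 1 = f (a t + 1) := by omega
    have hn := blocks_nxt hf has hk1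
    have hid := hf.id_le (a (t + 1))
    have hat := ha t
    have h3 := (le_max_left (y x (f (a t + 1))) (bb (f (a t + 1)))).trans_lt hat
    have h4 := (le_max_right (y x (f (a t + 1))) (bb (f (a t + 1)))).trans_lt hat
    refine ⟨⟨bb (f (a t + 1)), hbB _, ?_, ?_⟩, ?_⟩
    · have := hbb (f (a t + 1))
      omega
    · simp only [id] at hid
      omega
    · have := hy x (show k ≤ f (a t + 1) by omega)
      simp only [id] at hid
      omega

theorem exists_window {k : ℕ → ℕ} (hk : StrictMono k) {B : Set ℕ} (hB : B.Infinite) (p : ℕ) :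
    ∃ v, p ≤ v ∧ ∃ b ∈ B, k (v + 3) ≤ b ∧ b < k (v + 4) := by
  obtain ⟨b, hb, hbp⟩ := hB.exists_gt (k (p + 3))
  obtain ⟨i, hi1, hi2⟩ := exists_block hk (m := b)
    ((hk.monotone (Nat.zero_le _)).trans hbp.le)
  have hpi : p + 3 ≤ i := block_le hk hbp.le hi2
  obtain ⟨v, rfl⟩ : ∃ v, i = v + 3 := ⟨i - 3, by omega⟩
  exact ⟨v, by omega, b, hb, hi1, hi2⟩

theorem famH_groupwiseDense (hy : ∀ x, Monotone (y x))
    {k : ℕ → ℕ} (hk : StrictMono k)
    {B : Set ℕ} (hB : B.Infinite) : GroupwiseDense (famH y k B) := by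
  refine ⟨fun K hK => hK.1, fun J hJ Y hY hsub => ⟨hY, fun z hz => hJ.2 z (hz.mono hy hY hsub)⟩,
    fun f hf _ => ?_⟩
  choose v hv hvb using exists_window hk hB
  -- the windows starting at `s`
  let V : ℕ → ℕ → ℕ := fun s r => Nat.rec (v s) (fun _ q => v (q + 7)) r
  have hV0 : ∀ s, V s 0 = v s := fun s => rfl
  have hV1 : ∀ s r, V s (r + 1) = v (V s r + 7) := fun s r => rfl
  have hVs : ∀ s r, s ≤ V s r := by
    intro s r
    induction r with
    | zero => exact hv s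
    | succ r ih => rw [hV1]; have := hv (V s r + 7); omega
  have hVb : ∀ s r, ∃ b ∈ B, k (V s r + 3) ≤ b ∧ b < k (V s r + 4) := by
    intro s r
    cases r with
    | zero => exact hvb s
    | succ r => rw [hV1]; exact hvb _
  obtain ⟨a, has, -, ha⟩ := sparse (Set.infinite_univ (α := ℕ))
    (fun p => k (V (f (p + 1)) (f (p + 1)) + 7))
  refine ⟨range a, infinite_range_of_injective has.injective, ?_⟩
  have hJi := iUnion_blocks_infinite hf (infinite_range_of_injective has.injective)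
  refine ⟨hJi, fun z hz => ?_⟩
  obtain ⟨N, hN⟩ := hz
  rw [Set.infinite_iff_exists_gt]
  intro m
  -- choose t large
  have hfa : ∀ t, t ≤ f (a t) := fun t => (has.id_le t).trans (hf.id_le _)
  set t := max N m with ht
  have htN : N ≤ t := le_max_left _ _
  have htm : m ≤ t := le_max_right _ _
  obtain ⟨s, hs⟩ : ∃ s, s + 1 = f (a t + 1) := ⟨f (a t + 1) - 1, by
    have := hf (Nat.lt_succ_self (a t))
    have e : (a t).succ = a t + 1 := rfl
    rw [e] at this
    omega⟩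
  have hs1 : f (a t) ≤ s := by
    have := hf (Nat.lt_succ_self (a t))
    have e : (a t).succ = a t + 1 := rfl
    rw [e] at this
    omega
  have hsmem : s ∈ ⋃ a' ∈ range a, Set.Ico (f a') (f (a' + 1)) :=
    mem_biUnion ⟨t, rfl⟩ ⟨hs1, by omega⟩
  have hNs := hN s hsmem (by have := hfa t; omega)
  have hnx := blocks_nxt hf has hs
  have hid := hf.id_le (a (t + 1))
  simp only [id] at hid
  have hat := ha t
  simp only [← hs] at hat
  obtain ⟨r, hr, hmiss⟩ := pigeon (y := y z) (l := fun r => k (V (s + 1) r))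
    (u := fun r => k (V (s + 1) r + 7)) (s := s + 1)
    (fun r => hk.monotone (by rw [hV1]; exact hv _))
    (fun r => hk.monotone (by omega))
    (fun n hn => by
      have := hy z (show s ≤ n by omega)
      omega)
  obtain ⟨b, hbB, hb1, hb2⟩ := hVb (s + 1) r
  refine ⟨b, ⟨hbB, V (s + 1) r, hb1, hb2, hmiss⟩, ?_⟩
  have h5 := hk.id_le (V (s + 1) r + 3)
  have h6 := hVs (s + 1) r
  have h7 := hfa t
  simp only [id] at h5
  omega

/-- **Combinatorial core.** -/
theorem core (hy : ∀ x, Monotone (y x))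
    (h1 : ∀ j : ℕ → ℕ, StrictMono j → ∃ x, ∀ i, j (i + 1) < y x (j i))
    (h2 : ∀ x z, ∃ w, ∃ N, ∀ n ≥ N, y z n ≤ max (y x (n + 3)) (y w (n + 3)) + 1 ∧
      y x n ≤ max (y z (n + 3)) (y w (n + 3)) + 1)
    {h : ℕ → ℕ} (h3 : ∀ w N, ∃ n ≥ N, y w n ≤ h n)
    {R : Set (Set ℕ)} (hR : Reaping R)
    (hg : ∀ 𝓖 : R → Set (Set ℕ), (∀ B, GroupwiseDense (𝓖 B)) → ∃ K : Set ℕ, K.Infinite ∧
      ∀ B, K ∈ 𝓖 B) : False := by
  classical
  -- common K
  obtain ⟨K, hKi, hK⟩ := hg (fun B => famG y (B : Set ℕ))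
    (fun B => famG_groupwiseDense hy h1 (hR.1 _ B.2))
  let H : ℕ → ℕ := partialSups h
  have hHm : Monotone H := (partialSups h).monotone
  have hHle : ∀ n, h n ≤ H n := fun n => le_partialSups h n
  obtain ⟨k, hks, hkK, hkH⟩ := sparse hKi (fun p => H p + p + 10)
  have hk10 : ∀ i, k i + 10 ≤ k (i + 1) := fun i => by have := hkH i; omega
  have hkh : ∀ i, H (k i) + 10 ≤ k (i + 1) := fun i => by have := hkH i; omega
  have hri : (range k).Infinite := infinite_range_of_injective hks.injective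
  have hrsub : range k ⊆ K := by rintro _ ⟨i, rfl⟩; exact hkK i
  have hrG : ∀ B : R, range k ∈ famG y (B : Set ℕ) := fun B =>
    famG_sub hy (hK B) hri (by rw [sdiff_eq_empty.mpr hrsub]; exact finite_empty)
  -- common J
  obtain ⟨J, hJi, hJ⟩ := hg (fun B => famH y k (B : Set ℕ))
    (fun B => famH_groupwiseDense hy hks (hR.1 _ B.2))
  obtain ⟨j, hjs, hjJ, -⟩ := sparse hJi id
  obtain ⟨z, hz⟩ := h1 j hjs
  have hji : (range j).Infinite := infinite_range_of_injective hjs.injective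
  have hjsub : range j ⊆ J := by rintro _ ⟨i, rfl⟩; exact hjJ i
  have hbig : Big y z (range j) := by
    refine ⟨0, ?_⟩
    rintro _ ⟨i, rfl⟩ -
    rw [nxt_range hjs]
    exact hz i
  have hbigJ : Big y z J := hbig.mono hy hji (by rw [sdiff_eq_empty.mpr hjsub]; exact finite_empty)
  -- reaping
  obtain ⟨B, hBR, hB⟩ := hR.2 (farSet y k z)
  have hinf : (B ∩ farSet y k z).Infinite := (hJ ⟨B, hBR⟩).2 z hbigJ
  have hBfin : (B \ farSet y k z).Finite := by
    rcases hB with hB | hB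
    · exact absurd hB hinf
    · exact hB
  obtain ⟨-, x, ⟨N₀, hx0⟩, N₁, hx1⟩ := hrG ⟨B, hBR⟩
  obtain ⟨w, N₂, hw⟩ := h2 x z
  obtain ⟨M, hM⟩ := hBfin.bddAbove
  have hz0 := eventually_lt_of_fast hy hjs hz
  -- bound
  let I := N₀ + N₁ + N₂ + (M + 1) + j 0
  have hid : ∀ i, i ≤ k i := hks.id_le
  have hF : ∀ d ≥ I, (∀ n, ¬ (k (d + 3) ≤ y x n ∧ y x n < k (d + 4))) ∨
      ((∀ n, ¬ (k d ≤ y z n ∧ y z n < k (d + 7))) ∧ y x (k (d + 3)) < k (d + 4)) := by
    intro d hd
    have hdk := hid (d + 3)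
    have hIN : N₁ ≤ k (d + 3) := by omega
    have hIM : M < k (d + 3) := by omega
    rcases hx1 (k (d + 3)) ⟨d + 3, rfl⟩ hIN with hmiss | ⟨⟨b, hbB, hb1, hb2⟩, hb3⟩
    · left
      rw [nxt_range hks] at hmiss
      exact hmiss
    · right
      rw [nxt_range hks] at hb2 hb3
      refine ⟨?_, hb3⟩
      have hbA : b ∈ farSet y k z := by
        by_contra hcon
        have : b ≤ M := hM ⟨hbB, hcon⟩
        omega
      obtain ⟨i', hi1, hi2, hi3⟩ := hbA
      have e1 : i' + 3 ≤ d + 3 := block_le hks hi1 hb2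
      have e2 : d + 3 ≤ i' + 3 := block_le hks hb1 hi2
      obtain rfl : i' = d := by omega
      exact hi3
  have hfinal := final_block (a := y x) (b := y z) (c := y w) (h := H) (k := k) (I := I)
    (hy x) (hy w) hHm hk10 hkh hF (fun n hn => hx0 n (by omega)) (fun n hn => hz0 n (by omega))
    (fun n hn => (hw n (by omega)).1) (fun n hn => (hw n (by omega)).2)
  obtain ⟨n, hn, hn'⟩ := h3 w (k (I + 10))
  have e1 := hfinal n hn
  have e2 := hHle n
  omega

end families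

end Pool.Agent.H733.OB
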