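import Pool.Agent.H733.OB.Final

namespace Pool.Agent.H733.OB

open Set

/-- The final block computation, for an arbitrary control function `T`. -/
theorem final_block2 {a b c h TT k : ℕ → ℕ} {T : ℕ → ℕ → ℕ} (ha : Monotone a) (hc : Monotone c)
    (hh : Monotone h) (hTT : ∀ n q p, n ≤ p → q ≤ p → T n q ≤ TT p)
    (hk10 : ∀ i, k i + 10 ≤ k (i + 1)) (hkh : ∀ i, h (k i) + 10 ≤ k (i + 1))
    (hkT : ∀ i, TT (k i) < k (i + 1))
    {I : ℕ}
    (hF : ∀ d ≥ I, (∀ n, ¬ (k (d + 3) ≤ a n ∧ a n < k (d + 4))) ∨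
      ((∀ n, ¬ (k d ≤ b n ∧ b n < k (d + 7))) ∧ a (k (d + 3)) < k (d + 4)))
    (ha' : ∀ n ≥ I, n < a n) (hb' : ∀ n ≥ I, n < b n)
    (h1 : ∀ n ≥ I, b n ≤ T n (max (a (n + 4)) (c (n + 4))))
    (h2 : ∀ n ≥ I, a n ≤ T n (max (b (n + 4)) (c (n + 4)))) :
    ∀ n ≥ k (I + 10), h n < c n := by
  have hks : StrictMono k := strictMono_of_step hk10
  have hid : ∀ i, i ≤ k i := hks.id_le
  have hkm : ∀ i j, i ≤ j → k i ≤ k j := fun i j hij => hks.monotone hij
  have hkk : ∀ i j, i < j → k i + 10 ≤ k j := fun i j hij =>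
    (hk10 i).trans (hks.monotone hij)
  -- consequence of the growth of `k`
  have hbd : ∀ n q p, n ≤ k p → q ≤ k p → T n q < k (p + 1) := fun n q p hn hq =>
    (hTT n q (k p) hn hq).trans_lt (hkT p)
  -- if `v` is large and bounded by `T n (max s t)` with `s` small, then `t` is large
  have key : ∀ n s t v p q, n ≤ k q → s ≤ k q → q + 1 ≤ p + 1 → n ≤ k p →
      v ≤ T n (max s t) → k (p + 1) ≤ v → k p < t := by
    intro n s t v p q hn hs hqp hnp hv hpv
    by_contra hcon
    rw [not_lt] at hcon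
    rcases le_total s t with hle | hle
    · rw [max_eq_right hle] at hv
      have := hbd n t p hnp hcon
      omega
    · rw [max_eq_left hle] at hv
      have := hbd n s q hn hs
      have := hkm (q + 1) (p + 1) hqp
      omega
  intro n hn
  obtain ⟨i, hi1, hi2⟩ := exists_block hks (m := n) (le_trans (hks.monotone (Nat.zero_le _)) hn)
  have hiI : I + 10 ≤ i := block_le hks hn hi2
  obtain ⟨e, rfl⟩ : ∃ e, i = e + 10 := ⟨i - 10, by omega⟩
  -- main claim
  have main : k (e + 12) ≤ c (k (e + 10)) := by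
    by_cases hhit : ∃ d, e + 6 ≤ d ∧ d ≤ e + 9 ∧ ∃ n, k (d + 3) ≤ a n ∧ a n < k (d + 4)
    · obtain ⟨d, hd1, hd2, n', hn'⟩ := hhit
      rcases hF d (by omega) with hmiss | ⟨hbm, hak⟩
      · exact absurd hn' (hmiss n')
      · have hkd : I ≤ k d := le_trans (by omega) (hid d)
        have hb1 := hb' (k d) hkd
        have hb2 : k (d + 7) ≤ b (k d) := by
          by_contra hcon
          exact hbm (k d) ⟨hb1.le, not_le.mp hcon⟩
        have e01 := hkk d (d + 3) (by omega)
        have ha1 : a (k d + 4) ≤ a (k (d + 3)) := ha (by omega)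
        have e04 := hkm d (d + 4) (by omega)
        have e06 := hkm d (d + 6) (by omega)
        have hc1 := key (k d) (a (k d + 4)) (c (k d + 4)) (b (k d)) (d + 6) (d + 4) e04
          (by omega) (by omega) e06 (h1 (k d) hkd) hb2
        have hmono : c (k d + 4) ≤ c (k (e + 10)) := by
          apply hc
          have := hkk d (e + 10) (by omega)
          omega
        have := hkm (e + 12) (d + 6) (by omega)
        omega
    · have hmissA : ∀ d, e + 6 ≤ d → d ≤ e + 9 → ∀ n, ¬ (k (d + 3) ≤ a n ∧ a n < k (d + 4)) := by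
        intro d hd1 hd2 n' hn'
        exact hhit ⟨d, hd1, hd2, n', hn'⟩
      -- value of a at m₀ = k (e+9)
      have hI8 : I ≤ k (e + 9) := le_trans (by omega) (hid (e + 9))
      have ham := ha' (k (e + 9)) hI8
      obtain ⟨i₁, hi₁, hi₁'⟩ := exists_block hks (m := a (k (e + 9)))
        (le_trans (hks.monotone (Nat.zero_le (e + 9))) ham.le)
      have hge : e + 9 ≤ i₁ := block_le hks ham.le hi₁'
      have hge' : e + 13 ≤ i₁ := by
        by_contra hcon
        obtain ⟨d, rfl⟩ : ∃ d, i₁ = d + 3 := ⟨i₁ - 3, by omega⟩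
        exact hmissA d (by omega) (by omega) _ ⟨hi₁, hi₁'⟩
      obtain ⟨d, rfl⟩ : ∃ d, i₁ = d + 3 := ⟨i₁ - 3, by omega⟩
      rcases hF d (by omega) with hmiss | ⟨hbm, hak⟩
      · exact absurd ⟨hi₁, hi₁'⟩ (hmiss _)
      · have h910 := hkk (e + 9) (e + 10) (by omega)
        have h9d := hkk (e + 9) (d + 3) (by omega)
        have h9d0 := hkm (e + 9) d (by omega)
        have hdd2 := hkm d (d + 2) (by omega)
        rcases lt_or_ge (b (k (e + 9) + 4)) (k d) with hlt | hge2
        · have hc1 := key (k (e + 9)) (b (k (e + 9) + 4)) (c (k (e + 9) + 4)) (a (k (e + 9)))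
            (d + 2) d h9d0 hlt.le (by omega) (by omega) (h2 (k (e + 9)) hI8) hi₁
          have hmono : c (k (e + 9) + 4) ≤ c (k (e + 10)) := hc (by omega)
          have := hkm (e + 12) (d + 2) (by omega)
          omega
        · have hb2 : k (d + 7) ≤ b (k (e + 9) + 4) := by
            by_contra hcon
            exact hbm _ ⟨hge2, not_le.mp hcon⟩
          have ha1 : a (k (e + 9) + 4 + 4) ≤ a (k (d + 3)) := ha (by omega)
          have e34 := hkm (d + 3) (d + 4) (by omega)
          have e36 := hkm (d + 3) (d + 6) (by omega)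
          have hc1 := key (k (e + 9) + 4) (a (k (e + 9) + 4 + 4)) (c (k (e + 9) + 4 + 4))
            (b (k (e + 9) + 4)) (d + 6) (d + 4) (by omega) (by omega) (by omega) (by omega)
            (h1 (k (e + 9) + 4) (by omega)) hb2
          have hmono : c (k (e + 9) + 4 + 4) ≤ c (k (e + 10)) := hc (by omega)
          have := hkm (e + 12) (d + 6) (by omega)
          omega
  have hcn : c (k (e + 10)) ≤ c n := hc hi1
  have hi2' : n < k (e + 11) := hi2
  have hhn : h n ≤ h (k (e + 11)) := hh hi2'.le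
  have := hkh (e + 11)
  have e2 : e + 11 + 1 = e + 12 := rfl
  rw [e2] at this
  omega

end Pool.Agent.H733.OB
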