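import Pool.Agent.H733.OB.Core
import Pool.Agent.H733.OB.Final2

namespace Pool.Agent.H733.OB

open Set

variable {X : Type*} {y : X → ℕ → ℕ}

/-- a common majorant of a two-place function -/
def majo (T : ℕ → ℕ → ℕ) (p : ℕ) : ℕ :=
  (Finset.range (p + 1)).sup fun n => (Finset.range (p + 1)).sup fun q => T n q

theorem le_majo (T : ℕ → ℕ → ℕ) (n q p : ℕ) (hn : n ≤ p) (hq : q ≤ p) : T n q ≤ majo T p := by
  have h1 : T n q ≤ (Finset.range (p + 1)).sup fun q => T n q :=
    Finset.le_sup (f := fun q => T n q) (Finset.mem_range.mpr (Nat.lt_succ_of_le hq))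
  exact h1.trans (Finset.le_sup (f := fun n => (Finset.range (p + 1)).sup fun q => T n q)
    (Finset.mem_range.mpr (Nat.lt_succ_of_le hn)))

/-- **Combinatorial core**, with an arbitrary control function `T`. -/
theorem core2 (hy : ∀ x, Monotone (y x))
    (h1 : ∀ j : ℕ → ℕ, StrictMono j → ∃ x, ∀ i, j (i + 1) < y x (j i))
    {T : ℕ → ℕ → ℕ}
    (h2 : ∀ x z, ∃ w, ∃ N, ∀ n ≥ N, y z n ≤ T n (max (y x (n + 4)) (y w (n + 4))) ∧
      y x n ≤ T n (max (y z (n + 4)) (y w (n + 4))))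
    {h : ℕ → ℕ} (h3 : ∀ w N, ∃ n ≥ N, y w n ≤ h n)
    {R : Set (Set ℕ)} (hR : Reaping R)
    (hg : ∀ 𝓖 : R → Set (Set ℕ), (∀ B, GroupwiseDense (𝓖 B)) → ∃ K : Set ℕ, K.Infinite ∧
      ∀ B, K ∈ 𝓖 B) : False := by
  classical
  -- common K
  obtain ⟨K, hKi, hK⟩ := hg (fun B => famG y (B : Set ℕ))
    (fun B => famG_groupwiseDense hy h1 (hR.1 _ B.2))
  let H : ℕ → ℕ := partialSups h
  have hHm : Monotone H := (partialSups h).monotone
  have hHle : ∀ n, h n ≤ H n := fun n => le_partialSups h n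
  obtain ⟨k, hks, hkK, hkH⟩ := sparse hKi (fun p => H p + majo T p + p + 10)
  have hk10 : ∀ i, k i + 10 ≤ k (i + 1) := fun i => by have := hkH i; omega
  have hkh : ∀ i, H (k i) + 10 ≤ k (i + 1) := fun i => by have := hkH i; omega
  have hkT : ∀ i, majo T (k i) < k (i + 1) := fun i => by have := hkH i; omega
  have hri : (range k).Infinite := infinite_range_of_injective hks.injective
  have hrsub : range k ⊆ K := by rintro _ ⟨i, rfl⟩; exact hkK i
  have hrG : ∀ B : R, range k ∈ famG y (B : Set ℕ) := fun B =>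
    famG_sub hy (hK B) hri (by rw [sdiff_eq_empty.mpr hrsub]; exact finite_empty)
  -- common J
  obtain ⟨J, hJi, hJ⟩ := hg (fun B => famH y k (B : Set ℕ))
    (fun B => famH_groupwiseDense hy hks (hR.1 _ B.2))
  obtain ⟨j, hjs, hjJ, -⟩ := sparse hJi id
  obtain ⟨z, hz⟩ := h1 j hjs
  have hji : (range j).Infinite := infinite_range_of_injective hjs.injective
  have hjsub : range j ⊆ J := by rintro _ ⟨i, rfl⟩; exact hjJ i
  have hbig : Big y z (range j) := by
    refine ⟨0, ?_⟩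
    rintro _ ⟨i, rfl⟩ -
    rw [nxt_range hjs]
    exact hz i
  have hbigJ : Big y z J := hbig.mono hy hji (by rw [sdiff_eq_empty.mpr hjsub]; exact finite_empty)
  -- reaping
  obtain ⟨B, hBR, hB⟩ := hR.2 (farSet y k z)
  have hinf : (B ∩ farSet y k z).Infinite := (hJ ⟨B, hBR⟩).2 z hbigJ
  have hBfin : (B \ farSet y k z).Finite := by
    rcases hB with hB | hB
    · exact absurd hB hinf
    · exact hB
  obtain ⟨-, x, ⟨N₀, hx0⟩, N₁, hx1⟩ := hrG ⟨B, hBR⟩
  obtain ⟨w, N₂, hw⟩ := h2 x z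
  obtain ⟨M, hM⟩ := hBfin.bddAbove
  have hz0 := eventually_lt_of_fast hy hjs hz
  -- bound
  let I := N₀ + N₁ + N₂ + (M + 1) + j 0
  have hid : ∀ i, i ≤ k i := hks.id_le
  have hF : ∀ d ≥ I, (∀ n, ¬ (k (d + 3) ≤ y x n ∧ y x n < k (d + 4))) ∨
      ((∀ n, ¬ (k d ≤ y z n ∧ y z n < k (d + 7))) ∧ y x (k (d + 3)) < k (d + 4)) := by
    intro d hd
    have hdk := hid (d + 3)
    have hIN : N₁ ≤ k (d + 3) := by omega
    have hIM : M < k (d + 3) := by omega
    rcases hx1 (k (d + 3)) ⟨d + 3, rfl⟩ hIN with hmiss | ⟨⟨b, hbB, hb1, hb2⟩, hb3⟩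
    · left
      rw [nxt_range hks] at hmiss
      exact hmiss
    · right
      rw [nxt_range hks] at hb2 hb3
      refine ⟨?_, hb3⟩
      have hbA : b ∈ farSet y k z := by
        by_contra hcon
        have : b ≤ M := hM ⟨hbB, hcon⟩
        omega
      obtain ⟨i', hi1, hi2, hi3⟩ := hbA
      have e1 : i' + 3 ≤ d + 3 := block_le hks hi1 hb2
      have e2 : d + 3 ≤ i' + 3 := block_le hks hb1 hi2
      obtain rfl : i' = d := by omega
      exact hi3
  have hfinal := final_block2 (a := y x) (b := y z) (c := y w) (h := H) (TT := majo T) (k := k)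
    (T := T) (I := I) (hy x) (hy w) hHm (le_majo T) hk10 hkh hkT hF
    (fun n hn => hx0 n (by omega)) (fun n hn => hz0 n (by omega))
    (fun n hn => (hw n (by omega)).1) (fun n hn => (hw n (by omega)).2)
  obtain ⟨n, hn, hn'⟩ := h3 w (k (I + 10))
  have e1 := hfinal n hn
  have e2 := hHle n
  omega

end Pool.Agent.H733.OB
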