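import Mathlib

/-!
# Groupwise dense families, reaping families, the numbers 𝔤, 𝔯 and 𝔲
-/

namespace Pool.Agent.H733.OB

open Cardinal Set

/-- A family of infinite sets of natural numbers is groupwise dense if it is closed under
infinite almost subsets and, for every partition of the natural numbers into consecutive
finite intervals `[f a, f (a + 1))`, it contains the union of infinitely many of them. -/
def GroupwiseDense (𝒢 : Set (Set ℕ)) : Prop :=
  (∀ X ∈ 𝒢, X.Infinite) ∧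
  (∀ X ∈ 𝒢, ∀ Y : Set ℕ, Y.Infinite → (Y \ X).Finite → Y ∈ 𝒢) ∧
  ∀ f : ℕ → ℕ, StrictMono f → f 0 = 0 →
    ∃ A : Set ℕ, A.Infinite ∧ (⋃ a ∈ A, Set.Ico (f a) (f (a + 1))) ∈ 𝒢

/-- The groupwise density number `𝔤`: the least cardinality of a set of groupwise dense
families with empty intersection. -/
noncomputable def gNumber : Cardinal.{0} :=
  sInf {κ | ∃ 𝓕 : Set (Set (Set ℕ)), #𝓕 = κ ∧ (∀ 𝒢 ∈ 𝓕, GroupwiseDense 𝒢) ∧ ⋂₀ 𝓕 = ∅}

/-- A reaping (unsplit) family: a set of infinite sets of natural numbers such that no single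
set splits all of them. -/
def Reaping (R : Set (Set ℕ)) : Prop :=
  (∀ B ∈ R, B.Infinite) ∧ ∀ A : Set ℕ, ∃ B ∈ R, (B ∩ A).Finite ∨ (B \ A).Finite

/-- The reaping number `𝔯`. -/
noncomputable def rNumber : Cardinal.{0} :=
  sInf {κ | ∃ R : Set (Set ℕ), #R = κ ∧ Reaping R}

/-- The ultrafilter number `𝔲`: the least cardinality of a base of a nonprincipal ultrafilter
on the natural numbers. -/
noncomputable def uNumber : Cardinal.{0} :=
  sInf {κ | ∃ (p : Ultrafilter ℕ) (R : Set (Set ℕ)), (∀ n : ℕ, (p : Filter ℕ) ≠ pure n) ∧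
    #R = κ ∧ (∀ B ∈ R, B ∈ p) ∧ ∀ A ∈ p, ∃ B ∈ R, B ⊆ A}

end Pool.Agent.H733.OB
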