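import Pool.Agent.H733.OB.Core

/-!
# The groupwise density number is uncountable (a check that its definition is not degenerate)
-/

namespace Pool.Agent.H733.OB

open Set Cardinal

theorem groupwiseDense_coinf {X : Set ℕ} (hX : X.Infinite) :
    GroupwiseDense {Y : Set ℕ | Y.Infinite ∧ (X \ Y).Infinite} := by
  refine ⟨fun Y hY => hY.1, fun Y hY Z hZ hsub => ⟨hZ, ?_⟩, fun f hf _ => ?_⟩
  · intro hfin
    apply hY.2
    refine (hfin.union hsub).subset fun m hm => ?_
    by_cases hmZ : m ∈ Z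
    · exact Or.inr ⟨hmZ, hm.2⟩
    · exact Or.inl ⟨hm.1, hmZ⟩
  · choose v hv using fun m => hX.exists_gt m
    obtain ⟨a, has, -, ha⟩ := sparse (Set.infinite_univ (α := ℕ)) (fun p => v (f (p + 1)))
    refine ⟨range a, infinite_range_of_injective has.injective,
      iUnion_blocks_infinite hf (infinite_range_of_injective has.injective), ?_⟩
    rw [Set.infinite_iff_exists_gt]
    intro m
    refine ⟨v (f (a m + 1)), ⟨(hv _).1, ?_⟩, ?_⟩
    · intro hmem
      rw [mem_iUnion₂] at hmem
      obtain ⟨_, ⟨s, rfl⟩, hs⟩ := hmem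
      have h1 := (hv (f (a m + 1))).2
      have h2 : v (f (a m + 1)) < f (a (m + 1)) := (ha m).trans_le (hf.id_le _)
      rcases Nat.lt_or_ge m s with hms | hms
      · have := hf.monotone (has.monotone (show m + 1 ≤ s from hms))
        have := hs.1
        omega
      · have := hf.monotone (Nat.succ_le_succ (has.monotone hms))
        have h3 := hs.2
        have e : ∀ q, q.succ = q + 1 := fun _ => rfl
        rw [e, e] at this
        omega
    · have h1 := (hv (f (a m + 1))).2
      have h2 := hf.id_le (a m + 1)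
      have h3 := has.id_le m
      simp only [id] at h2 h3
      omega

theorem exists_common_seq (𝓖 : ℕ → Set (Set ℕ)) (h𝓖 : ∀ n, GroupwiseDense (𝓖 n)) :
    ∃ K : Set ℕ, ∀ n, K ∈ 𝓖 n := by
  classical
  -- refine inside an infinite set
  have step : ∀ n (X : Set ℕ), X.Infinite → ∃ Y ⊆ X, Y.Infinite ∧ Y ∈ 𝓖 n := by
    intro n X hX
    obtain ⟨f, hfs, hfX, -⟩ := sparse hX id
    -- partition with endpoints
    let f' : ℕ → ℕ := fun i => Nat.casesOn i 0 (fun i => f i + 1)
    have hf' : StrictMono f' := strictMono_nat_of_lt_succ fun i => by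
      cases i with
      | zero => exact Nat.succ_pos _
      | succ i => exact Nat.succ_lt_succ (hfs (Nat.lt_succ_self i))
    obtain ⟨A, hA, hAG⟩ := (h𝓖 n).2.2 f' hf' rfl
    have hinf : ((⋃ a ∈ A, Set.Ico (f' a) (f' (a + 1))) ∩ X).Infinite := by
      have hsub : f '' A ⊆ (⋃ a ∈ A, Set.Ico (f' a) (f' (a + 1))) ∩ X := by
        rintro _ ⟨a, ha, rfl⟩
        refine ⟨mem_biUnion ha ⟨?_, Nat.lt_succ_self _⟩, hfX a⟩
        cases a with
        | zero => exact Nat.zero_le _
        | succ a => exact hfs (Nat.lt_succ_self a)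
      exact (hA.image hfs.injective.injOn).mono hsub
    exact ⟨_, inter_subset_right, hinf, (h𝓖 n).2.1 _ hAG _ hinf
      (by rw [sdiff_eq_empty.mpr inter_subset_left]; exact finite_empty)⟩
  choose! Y hYX hYi hYG using step
  let X : ℕ → Set ℕ := fun n => Nat.rec (Y 0 univ) (fun n p => Y (n + 1) p) n
  have hXi : ∀ n, (X n).Infinite := by
    intro n
    induction n with
    | zero => exact hYi 0 univ infinite_univ
    | succ n ih => exact hYi (n + 1) _ ih
  have hXG : ∀ n, X n ∈ 𝓖 n := by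
    intro n
    cases n with
    | zero => exact hYG 0 univ infinite_univ
    | succ n => exact hYG (n + 1) _ (hXi n)
  have hXs : ∀ m n, m ≤ n → X n ⊆ X m := by
    intro m n hmn
    induction n, hmn using Nat.le_induction with
    | base => exact Subset.rfl
    | succ n _ ih => exact (hYX (n + 1) _ (hXi n)).trans ih
  choose v hvX hv using fun n m => (hXi n).exists_gt m
  let k : ℕ → ℕ := fun n => Nat.rec (v 0 0) (fun n p => v (n + 1) p) n
  have hks : StrictMono k := strictMono_nat_of_lt_succ fun n => hv (n + 1) (k n)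
  have hkX : ∀ n, k n ∈ X n := by
    intro n
    cases n with
    | zero => exact hvX 0 0
    | succ n => exact hvX (n + 1) (k n)
  refine ⟨range k, fun n => (h𝓖 n).2.1 _ (hXG n) _
    (infinite_range_of_injective hks.injective) ?_⟩
  refine ((Set.finite_Iio n).image k).subset ?_
  rintro _ ⟨⟨i, rfl⟩, hi⟩
  refine ⟨i, ?_, rfl⟩
  by_contra hcon
  exact hi (hXs n i (not_lt.mp hcon) (hkX i))

theorem aleph0_lt_gNumber : ℵ₀ < gNumber := by
  have hne : {κ : Cardinal.{0} | ∃ 𝓕 : Set (Set (Set ℕ)), #𝓕 = κ ∧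
      (∀ 𝒢 ∈ 𝓕, GroupwiseDense 𝒢) ∧ ⋂₀ 𝓕 = ∅}.Nonempty := by
    refine ⟨_, (fun X : Set ℕ => {Y : Set ℕ | Y.Infinite ∧ (X \ Y).Infinite}) ''
      {X | X.Infinite}, rfl, ?_, ?_⟩
    · rintro _ ⟨X, hX, rfl⟩
      exact groupwiseDense_coinf hX
    · rw [eq_empty_iff_forall_notMem]
      intro Y hY
      have h1 := hY _ ⟨univ, infinite_univ, rfl⟩
      have h2 := hY _ ⟨Y, h1.1, rfl⟩
      have h3 : (Y \ Y).Infinite := h2.2
      rw [sdiff_self] at h3
      exact h3 finite_empty
  obtain ⟨𝓕, hcard, hG, hemp⟩ := csInf_mem hne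
  change _ < sInf _
  rw [← hcard]
  by_contra hcon
  rw [not_lt] at hcon
  have hc : 𝓕.Countable := Cardinal.le_aleph0_iff_set_countable.mp hcon
  have hF : 𝓕.Nonempty := by
    rw [nonempty_iff_ne_empty]
    rintro rfl
    rw [sInter_empty] at hemp
    exact univ_nonempty.ne_empty hemp
  obtain ⟨g, rfl⟩ := hc.exists_eq_range hF
  obtain ⟨K, hK⟩ := exists_common_seq g (fun n => hG _ ⟨n, rfl⟩)
  have : K ∈ ⋂₀ range g := by
    rintro _ ⟨n, rfl⟩
    exact hK n
  rw [hemp] at this
  exact this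

end Pool.Agent.H733.OB
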