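import Mathlib

namespace Pool.Agent.H733.OB

open Set Filter
open scoped Pointwise Topology

/-- `A` is o-bounded in the topological group `G`. -/
def OBounded {G : Type*} [Group G] [TopologicalSpace G] (A : Set G) : Prop :=
  ∀ U : ℕ → Set G, (∀ n, U n ∈ 𝓝 (1 : G)) →
    ∃ F : ℕ → Finset G, A ⊆ ⋃ n, (F n : Set G) * U n

/-- Player I has a winning strategy in the Open-Finite game on `A`: `σ L` is the neighbourhood
chosen by player I when `L` is the list of the earlier moves of player II. -/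
def PlayerIWins {G : Type*} [Group G] [TopologicalSpace G] (A : Set G) : Prop :=
  ∃ σ : List (Finset G) → Set G, (∀ L, σ L ∈ 𝓝 (1 : G)) ∧
    ∀ F : ℕ → Finset G, ¬ A ⊆ ⋃ n, (F n : Set G) * σ ((List.range n).map F)

/-- `G` is a countable union of uniformly balanced sets: for every neighbourhood `U` of the
identity and every `k` some neighbourhood `V` satisfies `x V x⁻¹ ⊆ U` for all `x` in the
`k`-th set. -/
def SigmaBalanced (G : Type*) [Group G] [TopologicalSpace G] : Prop :=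
  ∃ C : ℕ → Set G, (⋃ k, C k) = Set.univ ∧
    ∀ k, ∀ U ∈ 𝓝 (1 : G), ∃ V ∈ 𝓝 (1 : G), ∀ x ∈ C k, ∀ v ∈ V, x * v * x⁻¹ ∈ U

/-- SIN-groups: every neighbourhood of the identity contains an invariant one. -/
def SIN (G : Type*) [Group G] [TopologicalSpace G] : Prop :=
  ∀ U ∈ 𝓝 (1 : G), ∃ V ∈ 𝓝 (1 : G), V ⊆ U ∧ ∀ x, ∀ v ∈ V, x * v * x⁻¹ ∈ V

structure Rec (G : Type*) where
  k : ℕ
  l : List (Finset G)
  F : Finset G
  U : Set G
  D : ℕ → Finset G

variable {G : Type*} [Group G] [TopologicalSpace G] [IsTopologicalGroup G]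

theorem exists_sys (σ : List (Finset G) → Set G) (hσ : ∀ L, σ L ∈ 𝓝 (1 : G))
    (C : ℕ → Set G)
    (hC : ∀ k, ∀ U ∈ 𝓝 (1 : G), ∃ V ∈ 𝓝 (1 : G), ∀ x ∈ C k, ∀ v ∈ V, x * v * x⁻¹ ∈ U)
    (hob : OBounded (Set.univ : Set G)) :
    ∃ (F : ℕ → Finset G) (U : ℕ → Set G) (l : ℕ → List (Finset G)),
      (∀ n, U n ∈ 𝓝 (1 : G)) ∧ (∀ n, ∀ u ∈ U n, u⁻¹ ∈ U n) ∧ (∀ n, ∀ g ∈ F n, g⁻¹ ∈ F n) ∧
      (∀ m n, m < n → ∀ a ∈ U n, ∀ b ∈ U n, a * b ∈ U m) ∧
      (∀ m n, m < n → F m ⊆ F n) ∧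
      (∀ m n, m < n → ∀ a ∈ F m, ∀ b ∈ F m, a * b ∈ F n) ∧
      (∀ m n, m < n → ∀ k ≤ m, ∀ g ∈ C k, ∀ u ∈ U n, g * u * g⁻¹ ∈ U m) ∧
      (∀ m n, m < n → (l m ++ [F n]).Sublist (l n)) ∧
      (∀ n L, List.Sublist L (l n) → U n ⊆ σ L) ∧
      (∀ n g, ∃ a, ∃ f ∈ F a, f⁻¹ * g ∈ U n) := by
  classical
  let P : Rec G → Prop := fun p => p.U ∈ 𝓝 (1 : G) ∧ (∀ u ∈ p.U, u⁻¹ ∈ p.U) ∧
    (∀ g ∈ p.F, g⁻¹ ∈ p.F) ∧ (∀ L, List.Sublist L p.l → p.U ⊆ σ L) ∧
    (∀ g, ∃ i, ∃ f ∈ p.D i, f⁻¹ * g ∈ p.U)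
  let r : Rec G → Rec G → Prop := fun x y => x.k < y.k ∧ (∀ i ≤ y.k, x.D i ⊆ y.F) ∧
    x.F ⊆ y.F ∧ (∀ a ∈ x.F, ∀ b ∈ x.F, a * b ∈ y.F) ∧
    (∀ a ∈ y.U, ∀ b ∈ y.U, a * b ∈ x.U) ∧
    (∀ k ≤ x.k, ∀ g ∈ C k, ∀ u ∈ y.U, g * u * g⁻¹ ∈ x.U) ∧
    (x.l ++ [y.F]).Sublist y.l
  have step : ∀ s : Finset (Rec G), (∀ x ∈ s, P x) → ∃ y, P y ∧ ∀ x ∈ s, r x y := by
    intro s hs
    set K : ℕ := s.sup Rec.k + 1 with hK
    set F₀ : Finset G := s.biUnion (fun x => x.F ∪ x.F * x.F ∪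
      (Finset.range (K + 1)).biUnion x.D) with hF₀
    set F₁ : Finset G := F₀ ∪ F₀⁻¹ with hF₁
    set l₁ : List (Finset G) := (s.toList.map Rec.l).flatten ++ [F₁] with hl₁
    have e1 : ∀ x ∈ s, ∀ᶠ V in (𝓝 (1 : G)).smallSets, ∀ a ∈ V, ∀ b ∈ V, a * b ∈ x.U := by
      intro x hx
      rw [Filter.eventually_smallSets]
      obtain ⟨V, hV, hVV⟩ := exists_nhds_one_split (hs x hx).1
      exact ⟨V, hV, fun t ht a ha b hb => hVV a (ht ha) b (ht hb)⟩
    have e2 : ∀ x ∈ s, ∀ k ∈ Finset.range (x.k + 1), ∀ᶠ V in (𝓝 (1 : G)).smallSets,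
        ∀ g ∈ C k, ∀ u ∈ V, g * u * g⁻¹ ∈ x.U := by
      intro x hx k hk
      rw [Filter.eventually_smallSets]
      obtain ⟨V, hV, hVV⟩ := hC k x.U (hs x hx).1
      exact ⟨V, hV, fun t ht g hg u hu => hVV g hg u (ht hu)⟩
    have e3 : ∀ L ∈ {L | L ∈ l₁.sublists}, ∀ᶠ V in (𝓝 (1 : G)).smallSets, V ⊆ σ L := by
      intro L hL
      rw [Filter.eventually_smallSets]
      exact ⟨σ L, hσ L, fun t ht => ht⟩
    have e1' := (Filter.eventually_all_finset s).mpr e1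
    have e2' := (Filter.eventually_all_finset s).mpr
      (fun x hx => (Filter.eventually_all_finset (Finset.range (x.k + 1))).mpr (e2 x hx))
    have e3' := (Filter.eventually_all_finite (List.finite_toSet l₁.sublists)).mpr e3
    obtain ⟨V, hV, hV'⟩ := Filter.eventually_smallSets.mp (e1'.and (e2'.and e3'))
    have hW : V ∩ V⁻¹ ∈ 𝓝 (1 : G) := Filter.inter_mem hV (inv_mem_nhds_one G hV)
    obtain ⟨h1, h2, h3⟩ := hV' (V ∩ V⁻¹) inter_subset_left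
    obtain ⟨D, hD⟩ := hob (fun _ => V ∩ V⁻¹) (fun _ => hW)
    have hsubF : ∀ x ∈ s, x.F ∪ x.F * x.F ∪ (Finset.range (K + 1)).biUnion x.D ⊆ F₁ := by
      intro x hx
      refine Finset.Subset.trans ?_ Finset.subset_union_left
      exact Finset.subset_biUnion_of_mem (fun x : Rec G => x.F ∪ x.F * x.F ∪
        (Finset.range (K + 1)).biUnion x.D) hx
    refine ⟨⟨K, l₁, F₁, V ∩ V⁻¹, D⟩, ⟨hW, ?_, ?_, ?_, ?_⟩, fun x hx => ⟨?_, ?_, ?_, ?_, ?_, ?_, ?_⟩⟩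
    · intro u hu
      exact ⟨hu.2, by simpa using hu.1⟩
    · intro g hg
      rw [hF₁, Finset.mem_union, Finset.mem_inv'] at hg ⊢
      rw [inv_inv]
      exact hg.symm
    · intro L hL
      exact h3 L (List.mem_sublists.mpr hL)
    · intro g
      obtain ⟨i, hi⟩ := mem_iUnion.mp (hD (mem_univ g))
      obtain ⟨f, hf, u, hu, hfu⟩ := hi
      refine ⟨i, f, hf, ?_⟩
      have hfu' : f * u = g := hfu
      rw [← hfu', inv_mul_cancel_left]
      exact hu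
    · have := Finset.le_sup (f := Rec.k) hx
      change x.k < K
      omega
    · intro i hi g hg
      apply hsubF x hx
      rw [Finset.mem_union]
      right
      rw [Finset.mem_biUnion]
      exact ⟨i, Finset.mem_range.mpr (Nat.lt_succ_of_le hi), hg⟩
    · intro g hg
      apply hsubF x hx
      rw [Finset.mem_union, Finset.mem_union]
      exact Or.inl (Or.inl hg)
    · intro a ha b hb
      apply hsubF x hx
      rw [Finset.mem_union, Finset.mem_union]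
      exact Or.inl (Or.inr (Finset.mul_mem_mul ha hb))
    · exact h1 x hx
    · intro k hk
      exact h2 x hx k (Finset.mem_range.mpr (Nat.lt_succ_of_le hk))
    · change (x.l ++ [F₁]).Sublist ((s.toList.map Rec.l).flatten ++ [F₁])
      apply List.Sublist.append_right
      apply List.sublist_flatten_of_mem
      exact List.mem_map.mpr ⟨x, Finset.mem_toList.mpr hx, rfl⟩
  obtain ⟨f, hf, hr⟩ := exists_seq_of_forall_finset_exists P r step
  have hfk : ∀ n, n ≤ (f n).k := by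
    intro n
    have : StrictMono fun n => (f n).k := fun m n hmn => (hr m n hmn).1
    exact this.id_le n
  refine ⟨fun n => (f n).F, fun n => (f n).U, fun n => (f n).l, fun n => (hf n).1,
    fun n => (hf n).2.1, fun n => (hf n).2.2.1, fun m n h => (hr m n h).2.2.2.2.1,
    fun m n h => (hr m n h).2.2.1, fun m n h => (hr m n h).2.2.2.1,
    fun m n h k hk => (hr m n h).2.2.2.2.2.1 k (hk.trans (hfk m)),
    fun m n h => (hr m n h).2.2.2.2.2.2, fun n => (hf n).2.2.2.1, fun n g => ?_⟩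
  obtain ⟨i, g', hg', hgU⟩ := (hf n).2.2.2.2 g
  have hlt : n < max (n + 1) i := lt_of_lt_of_le (Nat.lt_succ_self n) (le_max_left _ _)
  refine ⟨max (n + 1) i, g', ?_, hgU⟩
  exact (hr n _ hlt).2.1 i ((le_max_right _ _).trans (hfk _)) hg'

end Pool.Agent.H733.OB
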