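import Pool.Agent.H733.OB.Core
import Pool.Agent.H733.OB.Sys

namespace Pool.Agent.H733.OB

open Set Filter
open scoped Pointwise Topology

section norm

variable {G : Type*} [Group G]

/-- the `n`-th size of `x` -/
noncomputable def nm (F : ℕ → Finset G) (U : ℕ → Set G) (x : G) (n : ℕ) : ℕ :=
  sInf {a | ∃ f ∈ F a, f⁻¹ * x ∈ U n}

variable {F : ℕ → Finset G} {U : ℕ → Set G}

theorem nm_spec (hcov : ∀ n g, ∃ a, ∃ f ∈ F a, f⁻¹ * g ∈ U n) (x : G) (n : ℕ) :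
    ∃ f ∈ F (nm F U x n), f⁻¹ * x ∈ U n :=
  Nat.sInf_mem (s := {a | ∃ f ∈ F a, f⁻¹ * x ∈ U n}) (hcov n x)

theorem nm_le {x : G} {n a : ℕ} {f : G} (hf : f ∈ F a) (h : f⁻¹ * x ∈ U n) : nm F U x n ≤ a :=
  Nat.sInf_le ⟨f, hf, h⟩

theorem nm_mono (hcov : ∀ n g, ∃ a, ∃ f ∈ F a, f⁻¹ * g ∈ U n)
    (hU : ∀ m n, m ≤ n → U n ⊆ U m) (x : G) : Monotone (nm F U x) := by
  intro m n hmn
  obtain ⟨f, hf, hx⟩ := nm_spec hcov x n
  exact nm_le hf (hU m n hmn hx)

end norm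

variable {G : Type*} [Group G] [TopologicalSpace G] [IsTopologicalGroup G]

/-- The group part: a size function with the three properties used in the combinatorial core. -/
theorem exists_size (hC : SigmaBalanced G) (hob : OBounded (Set.univ : Set G))
    (hI : PlayerIWins (Set.univ : Set G)) :
    ∃ y : G → ℕ → ℕ, (∀ x, Monotone (y x)) ∧
      (∀ j : ℕ → ℕ, StrictMono j → ∃ x, ∀ i, j (i + 1) < y x (j i)) ∧
      (∀ x z, ∃ w, ∃ N, ∀ n ≥ N, y z n ≤ max (y x (n + 3)) (y w (n + 3)) + 1 ∧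
        y x n ≤ max (y z (n + 3)) (y w (n + 3)) + 1) ∧
      ∃ h : ℕ → ℕ, ∀ w N, ∃ n ≥ N, y w n ≤ h n := by
  classical
  obtain ⟨C, hCu, hCb⟩ := hC
  obtain ⟨σ, hσ, hwin⟩ := hI
  obtain ⟨F, U, l, hUn, hUinv, hFinv, hUmul, hFmono, hFmul, hconj, hlist, hstrat, hcov⟩ :=
    exists_sys σ hσ C hCb hob
  have h1U : ∀ n, (1 : G) ∈ U n := fun n => mem_of_mem_nhds (hUn n)
  have hU' : ∀ m n, m ≤ n → U n ⊆ U m := by
    intro m n hmn
    rcases eq_or_lt_of_le hmn with rfl | hlt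
    · exact Subset.rfl
    · intro u hu
      simpa using hUmul m n hlt u hu 1 (h1U n)
  have hF' : ∀ m n, m ≤ n → F m ⊆ F n := by
    intro m n hmn
    rcases eq_or_lt_of_le hmn with rfl | hlt
    · exact Finset.Subset.refl _
    · exact hFmono m n hlt
  have hym := nm_mono hcov hU'
  have hmemC : ∀ g : G, ∃ k, g ∈ C k := fun g => mem_iUnion.mp (hCu ▸ mem_univ g)
  refine ⟨nm F U, hym, ?_, ?_, ?_⟩
  · -- H1
    intro j hj
    have hsub : ∀ i, ((List.range i).map (fun i => F (j (i + 1)))).Sublist (l (j i)) := by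
      intro i
      induction i with
      | zero => simp
      | succ i ih =>
        rw [List.range_succ, List.map_append]
        exact (List.Sublist.append_right ih _).trans (hlist _ _ (hj (Nat.lt_succ_self i)))
    have := hwin (fun i => F (j (i + 1)))
    rw [Set.not_subset] at this
    obtain ⟨x, -, hx⟩ := this
    refine ⟨x, fun i => ?_⟩
    by_contra hcon
    apply hx
    obtain ⟨f, hf, hfx⟩ := nm_spec hcov x (j i)
    rw [mem_iUnion]
    refine ⟨i, f, hF' _ _ (not_lt.mp hcon) hf, f⁻¹ * x, ?_, by simp⟩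
    exact hstrat _ _ (hsub i) hfx
  · -- H2
    have hMul : ∀ x g : G, ∃ N, ∀ n ≥ N,
        nm F U (x * g) n ≤ max (nm F U x (n + 2)) (nm F U g (n + 2)) + 1 := by
      intro x g
      obtain ⟨k, hk⟩ := hmemC g⁻¹
      refine ⟨k, fun n hn => ?_⟩
      obtain ⟨f, hf, hfx⟩ := nm_spec hcov x (n + 2)
      obtain ⟨f', hf', hfg⟩ := nm_spec hcov g (n + 2)
      set M := max (nm F U x (n + 2)) (nm F U g (n + 2)) with hM
      have h1 : f * f' ∈ F (M + 1) :=
        hFmul M (M + 1) (Nat.lt_succ_self M) f (hF' _ _ (le_max_left _ _) hf) f'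
          (hF' _ _ (le_max_right _ _) hf')
      refine nm_le h1 ?_
      have h2 : g⁻¹ * (f⁻¹ * x) * g⁻¹⁻¹ ∈ U (n + 1) :=
        hconj (n + 1) (n + 2) (by omega) k (by omega) g⁻¹ hk _ hfx
      have h3 : f'⁻¹ * g ∈ U (n + 1) := hU' (n + 1) (n + 2) (by omega) hfg
      have h4 := hUmul n (n + 1) (by omega) _ h3 _ h2
      have h5 : (f * f')⁻¹ * (x * g) = f'⁻¹ * g * (g⁻¹ * (f⁻¹ * x) * g⁻¹⁻¹) := by group
      rw [h5]
      exact h4
    have hInv : ∀ g : G, ∃ N, ∀ n ≥ N, nm F U g⁻¹ n ≤ nm F U g (n + 1) := by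
      intro g
      obtain ⟨k, hk⟩ := hmemC g
      refine ⟨k, fun n hn => ?_⟩
      obtain ⟨f, hf, hfg⟩ := nm_spec hcov g (n + 1)
      refine nm_le (hFinv _ f hf) ?_
      have h2 : g * (f⁻¹ * g)⁻¹ * g⁻¹ ∈ U n :=
        hconj n (n + 1) (by omega) k hn g hk _ (hUinv _ _ hfg)
      have h3 : f⁻¹⁻¹ * g⁻¹ = g * (f⁻¹ * g)⁻¹ * g⁻¹ := by group
      rw [h3]
      exact h2
    intro x z
    obtain ⟨N₁, hN₁⟩ := hMul x (x⁻¹ * z)
    obtain ⟨N₂, hN₂⟩ := hMul z (x⁻¹ * z)⁻¹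
    obtain ⟨N₃, hN₃⟩ := hInv (x⁻¹ * z)
    refine ⟨x⁻¹ * z, N₁ + N₂ + N₃, fun n hn => ⟨?_, ?_⟩⟩
    · have e1 := hN₁ n (by omega)
      rw [mul_inv_cancel_left] at e1
      have e2 := hym x (show n + 2 ≤ n + 3 by omega)
      have e3 := hym (x⁻¹ * z) (show n + 2 ≤ n + 3 by omega)
      exact e1.trans (Nat.succ_le_succ (max_le_max e2 e3))
    · have e1 := hN₂ n (by omega)
      have e0 : z * (x⁻¹ * z)⁻¹ = x := by group
      rw [e0] at e1
      have e2 := hym z (show n + 2 ≤ n + 3 by omega)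
      have e3 := hN₃ (n + 2) (by omega)
      exact e1.trans (Nat.succ_le_succ (max_le_max e2 e3))
  · -- H3
    have hE : ∀ N, ∃ E : ℕ → Finset G, ∀ g : G, ∃ n, ∃ t ∈ E n, t⁻¹ * g ∈ U (N + n) := by
      intro N
      obtain ⟨E, hE⟩ := hob (fun n => U (N + n)) (fun n => hUn _)
      refine ⟨E, fun g => ?_⟩
      obtain ⟨n, hn⟩ := mem_iUnion.mp (hE (mem_univ g))
      obtain ⟨t, ht, u, hu, htu⟩ := hn
      refine ⟨n, t, ht, ?_⟩
      have htu' : t * u = g := htu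
      rw [← htu', inv_mul_cancel_left]
      exact hu
    choose E hE using hE
    let T : ℕ → Finset G := fun m => (Finset.range (m + 1)).biUnion (fun N => E N (m - N))
    refine ⟨fun n => (T (n + 1)).sup (fun t => nm F U t (n + 1)), fun w N => ?_⟩
    obtain ⟨n, t, ht, htw⟩ := hE (N + 1) w
    refine ⟨N + n, by omega, ?_⟩
    have e0 : N + n + 1 = N + 1 + n := by omega
    have htT : t ∈ T (N + n + 1) := by
      rw [Finset.mem_biUnion]
      refine ⟨N + 1, Finset.mem_range.mpr (by omega), ?_⟩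
      have : N + n + 1 - (N + 1) = n := by omega
      rw [this]
      exact ht
    refine le_trans ?_ (Finset.le_sup (f := fun t => nm F U t (N + n + 1)) htT)
    obtain ⟨f, hf, hft⟩ := nm_spec hcov t (N + n + 1)
    refine nm_le hf ?_
    rw [← e0] at htw
    have := hUmul (N + n) (N + n + 1) (by omega) _ hft _ htw
    have e1 : f⁻¹ * w = f⁻¹ * t * (t⁻¹ * w) := by group
    rw [e1]
    exact this

/-- a common element of few groupwise dense families -/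
theorem common_of_lt_gNumber {R : Set (Set ℕ)} (hRne : R.Nonempty)
    (hR : Cardinal.mk R < gNumber)
    (𝓖 : R → Set (Set ℕ)) (h𝓖 : ∀ B, GroupwiseDense (𝓖 B)) :
    ∃ K : Set ℕ, K.Infinite ∧ ∀ B, K ∈ 𝓖 B := by
  have hne : (⋂₀ range 𝓖).Nonempty := by
    by_contra hcon
    rw [not_nonempty_iff_eq_empty] at hcon
    have h1 : gNumber ≤ Cardinal.mk (range 𝓖) := by
      apply csInf_le'
      refine ⟨range 𝓖, rfl, ?_, hcon⟩
      rintro _ ⟨B, rfl⟩
      exact h𝓖 B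
    have h2 : Cardinal.mk (range 𝓖) ≤ Cardinal.mk R := Cardinal.mk_range_le
    exact absurd (h1.trans h2) (not_le.mpr hR)
  obtain ⟨K, hK⟩ := hne
  have hK' : ∀ B, K ∈ 𝓖 B := fun B => hK (𝓖 B) ⟨B, rfl⟩
  obtain ⟨B, hB⟩ := hRne
  exact ⟨K, (h𝓖 ⟨B, hB⟩).1 K (hK' _), hK'⟩

theorem Reaping.nonempty {R : Set (Set ℕ)} (hR : Reaping R) : R.Nonempty := by
  obtain ⟨B, hB, -⟩ := hR.2 ∅
  exact ⟨B, hB⟩

theorem exists_reaping : ∃ R : Set (Set ℕ), Reaping R := by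
  refine ⟨{B | B.Infinite}, fun B hB => hB, fun A => ?_⟩
  by_cases hA : A.Infinite
  · exact ⟨A, hA, Or.inr (by simp)⟩
  · refine ⟨Aᶜ, (not_infinite.mp hA).infinite_compl, Or.inl (by simp)⟩

theorem exists_rNumber : ∃ R : Set (Set ℕ), Cardinal.mk R = rNumber ∧ Reaping R := by
  obtain ⟨R, hR⟩ := exists_reaping
  exact csInf_mem (s := {κ | ∃ R : Set (Set ℕ), Cardinal.mk R = κ ∧ Reaping R})
    ⟨_, R, rfl, hR⟩

theorem rNumber_le_uNumber : rNumber ≤ uNumber := by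
  have hne : {κ : Cardinal.{0} | ∃ (p : Ultrafilter ℕ) (R : Set (Set ℕ)),
      (∀ n : ℕ, (p : Filter ℕ) ≠ pure n) ∧
      Cardinal.mk R = κ ∧ (∀ B ∈ R, B ∈ p) ∧ ∀ A ∈ p, ∃ B ∈ R, B ⊆ A}.Nonempty := by
    refine ⟨_, hyperfilter ℕ, {B | B ∈ hyperfilter ℕ}, fun n hn => ?_, rfl, fun B hB => hB,
      fun A hA => ⟨A, hA, Subset.rfl⟩⟩
    have h1 : ({n} : Set ℕ) ∈ (hyperfilter ℕ : Filter ℕ) := by
      rw [hn]; exact mem_pure.mpr rfl
    exact (notMem_hyperfilter_of_finite (Set.finite_singleton n)) h1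
  obtain ⟨p, R, hp, hcard, hR1, hR2⟩ := csInf_mem hne
  have hreap : Reaping R := by
    refine ⟨fun B hB hfin => ?_, fun A => ?_⟩
    · obtain ⟨n, -, hn⟩ := Ultrafilter.eq_pure_of_finite_mem hfin (hR1 B hB)
      apply hp n
      rw [hn]
      rfl
    · rcases p.mem_or_compl_mem A with hA | hA
      · obtain ⟨B, hB, hBA⟩ := hR2 A hA
        exact ⟨B, hB, Or.inr (by rw [sdiff_eq_empty.mpr hBA]; exact finite_empty)⟩
      · obtain ⟨B, hB, hBA⟩ := hR2 Aᶜ hA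
        refine ⟨B, hB, Or.inl ?_⟩
        have : B ∩ A = ∅ := by
          rw [← disjoint_iff_inter_eq_empty]
          exact disjoint_left.mpr fun x hx => hBA hx
        rw [this]
        exact finite_empty
  have h1 : rNumber ≤ Cardinal.mk R := csInf_le' ⟨R, rfl, hreap⟩
  exact h1.trans hcard.le

theorem gNumber_le_rNumber (hC : SigmaBalanced G) (hob : OBounded (Set.univ : Set G))
    (hI : PlayerIWins (Set.univ : Set G)) : gNumber ≤ rNumber := by
  by_contra hcon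
  rw [not_le] at hcon
  obtain ⟨R, hcard, hR⟩ := exists_rNumber
  obtain ⟨y, hy, h1, h2, h, h3⟩ := exists_size hC hob hI
  exact core hy h1 h2 h3 hR
    (fun 𝓖 h𝓖 => common_of_lt_gNumber hR.nonempty (hcard ▸ hcon) 𝓖 h𝓖)

theorem SIN.sigmaBalanced {G : Type*} [Group G] [TopologicalSpace G] (h : SIN G) :
    SigmaBalanced G := by
  refine ⟨fun _ => Set.univ, iUnion_const _, fun _ U hU => ?_⟩
  obtain ⟨V, hV, hVU, hinv⟩ := h U hU
  exact ⟨V, hV, fun x _ v hv => hVU (hinv x v hv)⟩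

theorem SIN.of_comm {G : Type*} [CommGroup G] [TopologicalSpace G] : SIN G := by
  intro U hU
  refine ⟨U, hU, Subset.rfl, fun x v hv => ?_⟩
  rwa [mul_comm x v, mul_inv_cancel_right]

end Pool.Agent.H733.OB
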