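import Pool.Agent.H733.OB.Main
import Pool.Agent.H733.OB.Core2
import Pool.Agent.H733.OB.Sys2

namespace Pool.Agent.H733.OB

open Set Filter
open scoped Pointwise Topology

variable {G : Type*} [Group G] [TopologicalSpace G] [IsTopologicalGroup G]

/-- The group part: a size function with the three properties used in the combinatorial core. -/
theorem exists_size2 (hC : SigmaTame G) (hob : OBounded (Set.univ : Set G))
    (hI : PlayerIWins (Set.univ : Set G)) :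
    ∃ (y : G → ℕ → ℕ) (T : ℕ → ℕ → ℕ), (∀ x, Monotone (y x)) ∧
      (∀ j : ℕ → ℕ, StrictMono j → ∃ x, ∀ i, j (i + 1) < y x (j i)) ∧
      (∀ x z, ∃ w, ∃ N, ∀ n ≥ N, y z n ≤ T n (max (y x (n + 4)) (y w (n + 4))) ∧
        y x n ≤ T n (max (y z (n + 4)) (y w (n + 4)))) ∧
      ∃ h : ℕ → ℕ, ∀ w N, ∃ n ≥ N, y w n ≤ h n := by
  classical
  obtain ⟨C, hCu, hCb⟩ := hC
  obtain ⟨σ, hσ, hwin⟩ := hI
  obtain ⟨F, U, l, hUn, hUinv, hFinv, hUmul, hFmono, hFmul, htm, hlist, hstrat, hcov⟩ :=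
    exists_sys2 σ hσ C hCb hob
  have h1U : ∀ n, (1 : G) ∈ U n := fun n => mem_of_mem_nhds (hUn n)
  have hU' : ∀ m n, m ≤ n → U n ⊆ U m := by
    intro m n hmn
    rcases eq_or_lt_of_le hmn with rfl | hlt
    · exact Subset.rfl
    · intro u hu
      simpa using hUmul m n hlt u hu 1 (h1U n)
  have hF' : ∀ m n, m ≤ n → F m ⊆ F n := by
    intro m n hmn
    rcases eq_or_lt_of_le hmn with rfl | hlt
    · exact Finset.Subset.refl _
    · exact hFmono m n hlt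
  have hym := nm_mono hcov hU'
  have hmemC : ∀ g : G, ∃ k, g ∈ C k := fun g => mem_iUnion.mp (hCu ▸ mem_univ g)
  -- tameness in terms of the sizes
  have htame1 : ∀ n a k, k ≤ n + 1 → ∃ c, ∀ x ∈ C k, ∀ p ∈ U (n + 2), ∀ f ∈ F a,
      ∀ q ∈ U (n + 2), x = p * f * q → ∀ u ∈ U (n + 2), ∀ v ∈ U (n + 2),
      ∃ e ∈ F c, e⁻¹ * (u * x * v) ∈ U n := by
    intro n a k hk
    obtain ⟨E, hE⟩ := htm (n + 1) (n + 2) (by omega) k hk (F a)
    refine ⟨E.sup (fun e => nm F U e (n + 1)), fun x hx p hp f hf q hq hxe u hu v hv => ?_⟩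
    have hmem : u * x * v ∈ U (n + 2) * (C k ∩ (U (n + 2) * (F a : Set G) * U (n + 2))) *
        U (n + 2) := by
      refine Set.mul_mem_mul (Set.mul_mem_mul hu ⟨hx, ?_⟩) hv
      rw [hxe]
      exact Set.mul_mem_mul (Set.mul_mem_mul hp hf) hq
    obtain ⟨e, he, w, hw, hew⟩ := hE hmem
    obtain ⟨f', hf', hfe⟩ := nm_spec hcov e (n + 1)
    refine ⟨f', hF' _ _ (Finset.le_sup (f := fun e => nm F U e (n + 1)) he) hf', ?_⟩
    have := hUmul n (n + 1) (by omega) _ hfe _ hw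
    have hew' : e * w = u * x * v := hew
    have e1 : f'⁻¹ * (u * x * v) = f'⁻¹ * e * w := by rw [← hew', mul_assoc]
    rw [e1]
    exact this
  choose! c0 hc0 using htame1
  let c : ℕ → ℕ → ℕ := fun n a => (Finset.range (n + 2)).sup (fun k => c0 n a k)
  have htame : ∀ n a k, k ≤ n + 1 → ∀ x ∈ C k, ∀ p ∈ U (n + 2), ∀ f ∈ F a,
      ∀ q ∈ U (n + 2), x = p * f * q → ∀ u ∈ U (n + 2), ∀ v ∈ U (n + 2),
      ∃ e ∈ F (c n a), e⁻¹ * (u * x * v) ∈ U n := by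
    intro n a k hk x hx p hp f hf q hq hxe u hu v hv
    obtain ⟨e, he, hh⟩ := hc0 n a k hk x hx p hp f hf q hq hxe u hu v hv
    refine ⟨e, hF' _ _ ?_ he, hh⟩
    exact Finset.le_sup (f := fun k => c0 n a k) (Finset.mem_range.mpr (by omega))
  let T1 : ℕ → ℕ → ℕ := fun n A => max A (c n A) + 1
  let B : ℕ → ℕ → ℕ := fun n A => max A (c (n + 2) A)
  let T2 : ℕ → ℕ → ℕ := fun n A => max (B n A) (c n (B n A)) + 1
  refine ⟨nm F U, fun n A => max (T1 n A) (T2 n A), hym, ?_, ?_, ?_⟩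
  · -- H1
    intro j hj
    have hsub : ∀ i, ((List.range i).map (fun i => F (j (i + 1)))).Sublist (l (j i)) := by
      intro i
      induction i with
      | zero => simp
      | succ i ih =>
        rw [List.range_succ, List.map_append]
        exact (List.Sublist.append_right ih _).trans (hlist _ _ (hj (Nat.lt_succ_self i)))
    have := hwin (fun i => F (j (i + 1)))
    rw [Set.not_subset] at this
    obtain ⟨x, -, hx⟩ := this
    refine ⟨x, fun i => ?_⟩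
    by_contra hcon
    apply hx
    obtain ⟨f, hf, hfx⟩ := nm_spec hcov x (j i)
    rw [mem_iUnion]
    refine ⟨i, f, hF' _ _ (not_lt.mp hcon) hf, f⁻¹ * x, ?_, by simp⟩
    exact hstrat _ _ (hsub i) hfx
  · -- H2
    have hfm : ∀ A D : ℕ, ∀ f ∈ F A, ∀ e ∈ F D, f * e ∈ F (max A D + 1) := by
      intro A D f hf e he
      exact hFmul (max A D) _ (Nat.lt_succ_self _) f (hF' _ _ (le_max_left _ _) hf) e
        (hF' _ _ (le_max_right _ _) he)
    intro x z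
    set w := x⁻¹ * z with hw
    obtain ⟨k₁, hk₁⟩ := hmemC w
    obtain ⟨k₂, hk₂⟩ := hmemC w⁻¹
    refine ⟨w, k₁ + k₂, fun n hn => ⟨le_trans ?_ (le_max_left _ _),
      le_trans ?_ (le_max_right _ _)⟩⟩
    · set A := max (nm F U x (n + 4)) (nm F U w (n + 4)) with hA
      obtain ⟨f, hf, hfx⟩ := nm_spec hcov x (n + 2)
      obtain ⟨f', hf', hfw⟩ := nm_spec hcov w (n + 2)
      have hf1 : f ∈ F A := hF' _ _ ((hym x (by omega)).trans (le_max_left _ _)) hf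
      have hf2 : f' ∈ F A := hF' _ _ ((hym w (by omega)).trans (le_max_right _ _)) hf'
      obtain ⟨e, he, hew⟩ := htame n A k₁ (by omega) w hk₁ 1 (h1U _) f' hf2 (f'⁻¹ * w) hfw
        (by simp) (f⁻¹ * x) hfx 1 (h1U _)
      refine nm_le (hfm A (c n A) f hf1 e he) ?_
      have e1 : (f * e)⁻¹ * z = e⁻¹ * (f⁻¹ * x * w * 1) := by
        rw [hw]; group
      rw [e1]
      exact hew
    · set A := max (nm F U z (n + 4)) (nm F U w (n + 4)) with hA
      obtain ⟨f', hf', hfw⟩ := nm_spec hcov w (n + 4)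
      have hf2 : f' ∈ F A := hF' _ _ (le_max_right _ _) hf'
      obtain ⟨e, he, hew⟩ := htame (n + 2) A k₂ (by omega) w⁻¹ hk₂ (f'⁻¹ * w)⁻¹
        (hUinv _ _ hfw) f'⁻¹ (hFinv _ _ hf2) 1 (h1U _) (by group) 1 (h1U _) 1 (h1U _)
      rw [one_mul, mul_one] at hew
      obtain ⟨f, hf, hfz⟩ := nm_spec hcov z (n + 2)
      have hf1 : f ∈ F (B n A) :=
        hF' _ _ ((hym z (by omega)).trans ((le_max_left _ _).trans (le_max_left _ _))) hf
      have he' : e ∈ F (B n A) := hF' _ _ (le_max_right _ _) he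
      obtain ⟨e2, he2, hew2⟩ := htame n (B n A) k₂ (by omega) w⁻¹ hk₂ 1 (h1U _) e he'
        (e⁻¹ * w⁻¹) hew (by group) (f⁻¹ * z) hfz 1 (h1U _)
      refine nm_le (hfm (B n A) (c n (B n A)) f hf1 e2 he2) ?_
      have e1 : (f * e2)⁻¹ * x = e2⁻¹ * (f⁻¹ * z * w⁻¹ * 1) := by
        rw [hw]; group
      rw [e1]
      exact hew2
  · -- H3
    have hE : ∀ N, ∃ E : ℕ → Finset G, ∀ g : G, ∃ n, ∃ t ∈ E n, t⁻¹ * g ∈ U (N + n) := by
      intro N
      obtain ⟨E, hE⟩ := hob (fun n => U (N + n)) (fun n => hUn _)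
      refine ⟨E, fun g => ?_⟩
      obtain ⟨n, hn⟩ := mem_iUnion.mp (hE (mem_univ g))
      obtain ⟨t, ht, u, hu, htu⟩ := hn
      refine ⟨n, t, ht, ?_⟩
      have htu' : t * u = g := htu
      rw [← htu', inv_mul_cancel_left]
      exact hu
    choose E hE using hE
    let T : ℕ → Finset G := fun m => (Finset.range (m + 1)).biUnion (fun N => E N (m - N))
    refine ⟨fun n => (T (n + 1)).sup (fun t => nm F U t (n + 1)), fun w N => ?_⟩
    obtain ⟨n, t, ht, htw⟩ := hE (N + 1) w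
    refine ⟨N + n, by omega, ?_⟩
    have e0 : N + n + 1 = N + 1 + n := by omega
    have htT : t ∈ T (N + n + 1) := by
      rw [Finset.mem_biUnion]
      refine ⟨N + 1, Finset.mem_range.mpr (by omega), ?_⟩
      have : N + n + 1 - (N + 1) = n := by omega
      rw [this]
      exact ht
    refine le_trans ?_ (Finset.le_sup (f := fun t => nm F U t (N + n + 1)) htT)
    obtain ⟨f, hf, hft⟩ := nm_spec hcov t (N + n + 1)
    refine nm_le hf ?_
    rw [← e0] at htw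
    have := hUmul (N + n) (N + n + 1) (by omega) _ hft _ htw
    have e1 : f⁻¹ * w = f⁻¹ * t * (t⁻¹ * w) := by group
    rw [e1]
    exact this

theorem gNumber_le_rNumber2 (hC : SigmaTame G) (hob : OBounded (Set.univ : Set G))
    (hI : PlayerIWins (Set.univ : Set G)) : gNumber ≤ rNumber := by
  by_contra hcon
  rw [not_le] at hcon
  obtain ⟨R, hcard, hR⟩ := exists_rNumber
  obtain ⟨y, T, hy, h1, h2, h, h3⟩ := exists_size2 hC hob hI
  exact core2 hy h1 h2 h3 hR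
    (fun 𝓖 h𝓖 => common_of_lt_gNumber hR.nonempty (hcard ▸ hcon) 𝓖 h𝓖)

/-- countable unions of uniformly balanced sets -/
theorem SigmaBalanced.sigmaTame (h : SigmaBalanced G) : SigmaTame G := by
  obtain ⟨C, hCu, hC⟩ := h
  refine ⟨fun k => C k.unpair.1 ∩ (C k.unpair.2)⁻¹, ?_, fun k U hU => ?_⟩
  · rw [eq_univ_iff_forall]
    intro g
    obtain ⟨a, ha⟩ := mem_iUnion.mp (hCu ▸ mem_univ g)
    obtain ⟨b, hb⟩ := mem_iUnion.mp (hCu ▸ mem_univ g⁻¹)
    refine mem_iUnion.mpr ⟨Nat.pair a b, ?_⟩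
    rw [Nat.unpair_pair]
    exact ⟨ha, hb⟩
  · obtain ⟨W, hW, hWU⟩ := exists_nhds_one_split4 hU
    obtain ⟨V, hV, hVW⟩ := hC k.unpair.2 W hW
    refine ⟨V ∩ W, inter_mem hV hW, fun F => ⟨F, ?_⟩⟩
    rintro _ ⟨_, ⟨u, hu, x, ⟨hx1, hx2⟩, rfl⟩, v, hv, rfl⟩
    obtain ⟨_, ⟨p, hp, f, hf, rfl⟩, q, hq, hpq⟩ := hx2
    have hpq' : p * f * q = x := hpq
    have hx3 : x⁻¹ ∈ C k.unpair.2 := hx1.2
    have h1 := hVW x⁻¹ hx3 p hp.1
    have h2 := hVW x⁻¹ hx3 u hu.1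
    rw [inv_inv] at h1 h2
    refine ⟨f, hf, _, hWU hq.2 h1 h2 hv.2, ?_⟩
    change f * (q * (x⁻¹ * p * x) * (x⁻¹ * u * x) * v) = u * x * v
    have e1 : x⁻¹ * (p * f * q) = 1 := by rw [hpq']; simp
    have e2 : f * q * (x⁻¹ * p) = 1 := by
      have e3 : f * q * (x⁻¹ * p) = p⁻¹ * (x * (x⁻¹ * p)) := by
        rw [← hpq']; group
      rw [e3]; simp
    calc f * (q * (x⁻¹ * p * x) * (x⁻¹ * u * x) * v)
        = (f * q * (x⁻¹ * p)) * (x * x⁻¹ * u * x * v) := by group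
      _ = u * x * v := by rw [e2]; group

/-- every double coset `V g V` is covered by finitely many left translates of `U` -/
def Tame (G : Type*) [Group G] [TopologicalSpace G] : Prop :=
  ∀ U ∈ 𝓝 (1 : G), ∃ V ∈ 𝓝 (1 : G), ∀ g : G, ∃ E : Finset G,
    ∀ u ∈ V, ∀ v ∈ V, ∃ e ∈ E, e⁻¹ * (u * g * v) ∈ U

theorem Tame.sigmaTame (h : Tame G) : SigmaTame G := by
  classical
  refine ⟨fun _ => Set.univ, iUnion_const _, fun _ U hU => ?_⟩
  obtain ⟨V, hV, hVU⟩ := h U hU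
  obtain ⟨W, hW, hWV⟩ := exists_nhds_one_split hV
  refine ⟨W, hW, fun F => ?_⟩
  choose E hE using hVU
  refine ⟨F.biUnion E, ?_⟩
  rintro _ ⟨_, ⟨u, hu, x, ⟨-, hx2⟩, rfl⟩, v, hv, rfl⟩
  obtain ⟨_, ⟨p, hp, f, hf, rfl⟩, q, hq, hpq⟩ := hx2
  have hpq' : p * f * q = x := hpq
  obtain ⟨e, he, hee⟩ := hE f (u * p) (hWV _ hu _ hp) (q * v) (hWV _ hq _ hv)
  refine ⟨e, ?_, e⁻¹ * (u * p * f * (q * v)), hee, ?_⟩
  · rw [Finset.mem_coe, Finset.mem_biUnion]
    exact ⟨f, hf, he⟩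
  · change e * (e⁻¹ * (u * p * f * (q * v))) = u * x * v
    rw [← hpq']; group

theorem SIN.tame (h : SIN G) : Tame G := by
  intro U hU
  obtain ⟨W, hW, hWU⟩ := exists_nhds_one_split hU
  obtain ⟨V, hV, hVW, hinv⟩ := h W hW
  refine ⟨V, hV, fun g => ⟨{g}, fun u hu v hv => ⟨g, Finset.mem_singleton_self g, ?_⟩⟩⟩
  have h1 := hinv g⁻¹ u hu
  rw [inv_inv] at h1
  have h2 := hWU _ (hVW h1) _ (hVW hv)
  have e1 : g⁻¹ * (u * g * v) = g⁻¹ * u * g * v := by group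
  rw [e1]; exact h2

theorem tame_of_locallyCompact [LocallyCompactSpace G] : Tame G := by
  classical
  intro U hU
  obtain ⟨V, hVc, hV⟩ := exists_compact_mem_nhds (1 : G)
  refine ⟨V, hV, fun g => ?_⟩
  have hK : IsCompact (V * {g} * V) := (hVc.mul isCompact_singleton).mul hVc
  obtain ⟨t, ht, htc⟩ := hK.elim_nhds_subcover (fun x => x • U) (fun x _ => by
    have := smul_mem_nhds_smul x hU
    simpa using this)
  refine ⟨t, fun u hu v hv => ?_⟩
  have hmem : u * g * v ∈ V * {g} * V :=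
    Set.mul_mem_mul (Set.mul_mem_mul hu (mem_singleton g)) hv
  obtain ⟨e, he, hee⟩ := mem_iUnion₂.mp (htc hmem)
  refine ⟨e, he, ?_⟩
  rw [Set.mem_smul_set_iff_inv_smul_mem] at hee
  exact hee

/-- tameness passes to groups with the topology induced by homomorphisms into tame groups -/
theorem tame_of_inducing {ι : Type*} {H : ι → Type*} [∀ i, Group (H i)]
    [∀ i, TopologicalSpace (H i)] [∀ i, IsTopologicalGroup (H i)]
    {G : Type*} [Group G] [TopologicalSpace G]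
    (f : G →* ∀ i, H i) (hf : Topology.IsInducing f) (hH : ∀ i, Tame (H i)) : Tame G := by
  classical
  intro U hU
  rw [hf.nhds_eq_comap, map_one] at hU
  obtain ⟨O, hO, hOU⟩ := hU
  rw [nhds_pi, Filter.mem_pi] at hO
  obtain ⟨I, hI, W, hW, hWO⟩ := hO
  -- half neighbourhoods
  have hhalf : ∀ i, ∃ W' ∈ 𝓝 (1 : H i), ∀ a ∈ W', ∀ b ∈ W', a⁻¹ * b ∈ W i := by
    intro i
    obtain ⟨V, hV, hVV⟩ := exists_nhds_one_split (hW i)
    refine ⟨V ∩ V⁻¹, inter_mem hV (inv_mem_nhds_one _ hV), fun a ha b hb => hVV _ ?_ _ hb.1⟩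
    exact ha.2
  choose W' hW' hWW' using hhalf
  choose V hV hVt using fun i => hH i (W' i) (hW' i)
  refine ⟨f ⁻¹' (I.pi V), ?_, fun g => ?_⟩
  · rw [hf.nhds_eq_comap, map_one]
    exact preimage_mem_comap (set_pi_mem_nhds hI fun i _ => hV i)
  choose E hE using fun i => hVt i (f g i)
  -- colours
  have : Finite I := hI.to_subtype
  have hcol : ∀ s : {s : G // ∃ u ∈ f ⁻¹' (I.pi V), ∃ v ∈ f ⁻¹' (I.pi V), u * g * v = s},
      ∃ e : ∀ i : I, E i, ∀ i : I, ((e i : H i))⁻¹ * f s i ∈ W' i := by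
    rintro ⟨s, u, hu, v, hv, rfl⟩
    have : ∀ i : I, ∃ e : E i, (e : H i)⁻¹ * f (u * g * v) i ∈ W' i := by
      intro i
      obtain ⟨e, he, hee⟩ := hE i (f u i) (hu i i.2) (f v i) (hv i i.2)
      refine ⟨⟨e, he⟩, ?_⟩
      simpa using hee
    choose e he using this
    exact ⟨e, he⟩
  choose col hcol using hcol
  have h1V : (1 : G) ∈ f ⁻¹' (I.pi V) := by
    intro i _
    rw [map_one]
    exact mem_of_mem_nhds (hV i)
  have : Nonempty {s : G // ∃ u ∈ f ⁻¹' (I.pi V), ∃ v ∈ f ⁻¹' (I.pi V), u * g * v = s} :=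
    ⟨⟨1 * g * 1, 1, h1V, 1, h1V, rfl⟩⟩
  have hfin : (range col).Finite := Set.toFinite _
  choose! rep hrep using fun (e : ∀ i : I, E i) (he : e ∈ range col) => he
  refine ⟨(hfin.toFinset.image fun e => (rep e : G)), fun u hu v hv => ?_⟩
  set s : {s : G // ∃ u ∈ f ⁻¹' (I.pi V), ∃ v ∈ f ⁻¹' (I.pi V), u * g * v = s} :=
    ⟨u * g * v, u, hu, v, hv, rfl⟩ with hs
  have hmem : col s ∈ range col := ⟨s, rfl⟩
  refine ⟨rep (col s), Finset.mem_image.mpr ⟨col s, hfin.mem_toFinset.mpr hmem, rfl⟩, ?_⟩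
  apply hOU
  apply hWO
  intro i hi
  have h1 := hcol (rep (col s)) ⟨i, hi⟩
  rw [hrep (col s) hmem] at h1
  have h2 := hcol s ⟨i, hi⟩
  have h3 := hWW' i _ h1 _ h2
  simp only [map_mul, map_inv, Pi.mul_apply, Pi.inv_apply]
  have e1 : ((col s ⟨i, hi⟩ : H i)⁻¹ * f (rep (col s)) i)⁻¹ *
      ((col s ⟨i, hi⟩ : H i)⁻¹ * f s i) = (f (rep (col s)) i)⁻¹ * f s i := by group
  rw [e1] at h3
  have e2 : f s i = f u i * f g i * f v i := by
    change f (u * g * v) i = _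
    simp
  rw [e2] at h3
  exact h3

end Pool.Agent.H733.OB
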